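import Pool.Agent.H319IZ.Defs

/-! The certificate: for consecutive `v < w` prime to `3` in `(18 i, 18 (i + 1))`, `i < 6`, a list of
moves from `108 q + v` to `108 q + w`. -/

set_option autoImplicit false

namespace Pool.Agent.H319IZ

/-- triples `(v, w, moves)` -/
def cert : List (ℕ × ℕ × List ℕ) :=
  [(1, 2, [0, 0, 2, 2, 1, 1, 1, 1, 3, 0, 3, 0]),
   (2, 4, [3, 0, 3, 0, 0, 2, 2, 1, 1, 1]),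
   (4, 5, [1, 3, 0, 2]),
   (5, 7, [3, 3, 0, 2, 2, 1]),
   (7, 8, [2, 1, 1, 3, 0, 0]),
   (8, 10, [1, 1, 3, 0, 2, 0]),
   (10, 11, [1, 3, 0, 2]),
   (11, 13, [3, 1, 3, 0, 2, 2, 1, 2, 1, 2, 0, 0, 0, 0, 3, 3, 1, 1]),
   (13, 14, [0, 0, 2, 2, 1, 1, 1, 1, 3, 0, 3, 0]),
   (14, 16, [3, 3, 0, 2, 2, 1]),
   (16, 17, [0, 3, 3, 0, 2, 2, 1, 1]),
   (19, 20, [2, 1, 1, 3, 0, 0]),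
   (20, 22, [1, 1, 3, 0, 2, 0]),
   (22, 23, [1, 3, 0, 2]),
   (23, 25, [3, 0, 0, 3, 0, 0, 0, 0, 2, 2, 1, 1, 2, 1, 1, 1, 1, 3]),
   (25, 26, [0, 0, 2, 2, 1, 1, 1, 1, 3, 0, 3, 0]),
   (26, 28, [0, 0, 3, 0, 0, 0, 0, 2, 2, 1, 1, 2, 1, 1, 1, 1, 1, 1, 3, 3, 0, 0]),
   (28, 29, [1, 3, 0, 2]),
   (29, 31, [3, 0, 3, 0, 0, 2, 2, 1, 1, 1]),
   (31, 32, [2, 1, 1, 3, 0, 0]),
   (32, 34, [3, 3, 0, 2, 2, 1]),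
   (34, 35, [0, 3, 3, 0, 2, 2, 1, 1]),
   (37, 38, [0, 0, 2, 2, 1, 1, 1, 1, 3, 0, 3, 0]),
   (38, 40, [3, 0, 0, 2, 2, 1, 1, 1, 1, 3, 0, 0]),
   (40, 41, [1, 3, 0, 2]),
   (41, 43, [3, 3, 0, 2, 2, 1]),
   (43, 44, [2, 1, 1, 3, 0, 0]),
   (44, 46, [1, 1, 3, 0, 2, 0]),
   (46, 47, [1, 3, 0, 2]),
   (47, 49, [3, 0, 3, 0, 0, 2, 2, 1, 1, 1]),
   (49, 50, [0, 0, 2, 2, 1, 1, 1, 1, 3, 0, 3, 0]),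
   (50, 52, [3, 0, 0, 2, 2, 1, 1, 1, 1, 3, 0, 0]),
   (52, 53, [0, 3, 0, 0, 3, 0, 0, 2, 2, 1, 1, 1, 2, 1, 1, 3]),
   (55, 56, [2, 1, 1, 3, 0, 0]),
   (56, 58, [1, 1, 3, 0, 2, 0]),
   (58, 59, [1, 3, 0, 2]),
   (59, 61, [3, 3, 0, 2, 2, 1]),
   (61, 62, [0, 3, 3, 0, 2, 2, 1, 1]),
   (62, 64, [0, 0, 3, 3, 1, 1, 2, 1, 1, 3, 0, 2, 2, 0]),
   (64, 65, [1, 3, 0, 2]),
   (65, 67, [3, 1, 3, 0, 2, 2, 1, 1, 2, 0, 0, 3]),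
   (67, 68, [2, 1, 1, 3, 0, 0]),
   (68, 70, [3, 3, 0, 2, 2, 1]),
   (70, 71, [0, 3, 3, 0, 2, 2, 1, 1]),
   (73, 74, [0, 0, 2, 2, 1, 1, 1, 1, 3, 0, 3, 0]),
   (74, 76, [3, 0, 3, 0, 0, 2, 2, 1, 1, 1]),
   (76, 77, [1, 3, 0, 2]),
   (77, 79, [3, 0, 0, 3, 0, 0, 0, 0, 2, 2, 1, 1, 2, 1, 1, 1, 1, 3]),
   (79, 80, [2, 1, 1, 3, 0, 0]),
   (80, 82, [1, 1, 3, 0, 2, 0]),
   (82, 83, [1, 3, 0, 2]),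
   (83, 85, [3, 0, 3, 0, 0, 2, 2, 1, 1, 1]),
   (85, 86, [0, 0, 2, 2, 1, 1, 1, 1, 3, 0, 3, 0]),
   (86, 88, [3, 3, 0, 2, 2, 1]),
   (88, 89, [0, 3, 3, 0, 2, 2, 1, 1]),
   (91, 92, [2, 1, 1, 3, 0, 0]),
   (92, 94, [1, 1, 3, 0, 2, 0]),
   (94, 95, [1, 3, 0, 2]),
   (95, 97, [3, 3, 0, 2, 2, 1]),
   (97, 98, [0, 3, 3, 0, 2, 2, 1, 1]),
   (98, 100, [0, 0, 3, 3, 0, 0, 2, 2, 1, 1, 2, 1, 1, 1, 1, 3, 0, 0]),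
   (100, 101, [1, 3, 0, 2]),
   (101, 103, [3, 0, 3, 0, 0, 2, 2, 1, 1, 1]),
   (103, 104, [2, 1, 1, 3, 0, 0]),
   (104, 106, [3, 0, 0, 3, 0, 0, 2, 2, 1, 1, 1, 2, 1, 1, 3, 0]),
   (106, 107, [0, 3, 0, 0, 2, 2, 1, 1, 1, 2, 1, 1, 3, 0, 0, 3])]

theorem cert_ok : ∀ e ∈ cert, run e.2.2 (2, 3, e.1) = some (2, 3, e.2.1) := by
  decide

end Pool.Agent.H319IZ
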