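import Pool.Agent.H319R3.PO.Defs

/-!
The Isard–Zwicky problem: shared definitions.

`x ≥ 1` prime to `3` stands for the number `n = 2 x - 1` of the problem. `P x` = "`2 x - 1` can be
reached from `1`"; it satisfies `Cl P`. Forward moves (against which `P` is inherited):
`x ↦ 2 x` and `3 x - 1 ↦ x`.
-/

set_option autoImplicit false

namespace Pool.Agent.H319IZ
open Pool.Agent.H319R3.GC Pool.Agent.H319R3.PO Finset Filter Topology

/-- `T x = x / 2`, `(3 x - 1) / 2` -/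
def mT (i : ℕ) : ℤ := if i = 0 then 1 else 3

/-- offsets of `T` -/
def rT (i : ℕ) : ℤ := if i = 0 then 0 else 1

/-- `R x = x / 3`, `(2 x + 1) / 3`, `(4 x + 1) / 3` -/
def mR (i : ℕ) : ℤ := if i = 0 then 1 else if i = 1 then 2 else 4

/-- offsets of `R` -/
def rR (i : ℕ) : ℤ := if i = 0 then 0 else -1

/-- the map `T` -/
def T (x : ℤ) : ℤ := if x % 2 = 0 then x / 2 else (3 * x - 1) / 2

/-- the map `R` -/
def R (x : ℤ) : ℤ := if x % 3 = 0 then x / 3 else if x % 3 = 1 then (2 * x + 1) / 3 else (4 * x + 1) / 3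

/-- the closure properties of the set of reachable points -/
structure Cl (P : ℤ → Prop) : Prop where
  one : P 1
  tri : ∀ x : ℤ, 1 ≤ x → P x → P (3 * x - 1)
  half : ∀ x : ℤ, 1 ≤ x → P (2 * x) → P x

/-- the preimages of `y` under `S^k` in `[1, D^k y]` -/
noncomputable def tr (S : ℤ → ℤ) (D : ℤ) (k : ℕ) (y : ℤ) : Finset ℤ :=
  (Icc 1 (D ^ k * y)).filter (fun x => S^[k] x = y)

/-- their harmonic sum -/
noncomputable def HH (S : ℤ → ℤ) (D : ℤ) (k : ℕ) (y : ℤ) : ℝ := ∑ x ∈ tr S D k y, 1 / (x : ℝ)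

/-- uniform lower bound of the harmonic sums of all levels `k ≥ K` -/
def TB (S : ℤ → ℤ) (D : ℤ) (c : ℝ) (K : ℕ) (y : ℤ) : Prop := ∀ k : ℕ, K ≤ k → c / (y : ℝ) ≤ HH S D k y

/-- harmonically finite sets of natural numbers: `∑_{q ∈ A} 1 / (q + 1) < ∞` -/
def HF (A : Set ℕ) : Prop := ∃ C : ℝ, ∀ F : Finset ℕ, (∀ q ∈ F, q ∈ A) → ∑ q ∈ F, 1 / ((q : ℝ) + 1) ≤ C

/-- logarithmic density zero -/
def LD0 (A : Set ℕ) : Prop := ∀ ε : ℝ, 0 < ε → ∃ X₀ : ℕ, ∀ X : ℕ, X₀ ≤ X →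
  ∀ F : Finset ℕ, (∀ q ∈ F, q ∈ A ∧ q < X) → ∑ q ∈ F, 1 / ((q : ℝ) + 1) ≤ ε * Real.log X

/-- `P (u q)` and `P (v q)` agree outside a harmonically finite set of `q` -/
def Near (P : ℤ → Prop) (u v : ℕ → ℤ) : Prop := HF {q : ℕ | ¬ (P (u q) ↔ P (v q))}

/-- the sequence `q ↦ 2^p 3^s q + v` coded by `(p, s, v)` -/
def sq (a : ℕ × ℕ × ℕ) (q : ℕ) : ℤ := 2 ^ a.1 * 3 ^ a.2.1 * (q : ℤ) + a.2.2

/-- admissible codes: `1 ≤ s`, `v` prime to `3` -/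
def okc (a : ℕ × ℕ × ℕ) : Bool := decide (1 ≤ a.2.1) && decide (a.2.2 % 3 ≠ 0)

/-- moves of codes: `0`: double, `1`: halve, `2`: `x ↦ 3 x - 1`, `3`: `x ↦ (x + 1) / 3` -/
def mv (t : ℕ) (a : ℕ × ℕ × ℕ) : Option (ℕ × ℕ × ℕ) :=
  let p := a.1
  let s := a.2.1
  let v := a.2.2
  if t = 0 then some (p + 1, s, 2 * v)
  else if t = 1 then (if 1 ≤ p ∧ v % 2 = 0 then some (p - 1, s, v / 2) else none)
  else if t = 2 then some (p, s + 1, 3 * v - 1)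
  else (if 2 ≤ s ∧ v % 3 = 2 ∧ ((v + 1) / 3) % 3 ≠ 0 then some (p, s - 1, (v + 1) / 3) else none)

/-- run a list of moves -/
def run : List ℕ → ℕ × ℕ × ℕ → Option (ℕ × ℕ × ℕ)
  | [], a => some a
  | t :: l, a => (mv t a).bind (run l)

end Pool.Agent.H319IZ
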