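import Pool.Agent.H319IZ.Defs

/-! Blueprint: the Isard–Zwicky problem (all statements, with `sorry`). Never import this file in a
hand-in. -/

set_option autoImplicit false

namespace Pool.Agent.H319IZ.Stubs
open Pool.Agent.H319R3.GC Pool.Agent.H319R3.PO Pool.Agent.H319IZ Finset Filter Topology

variable {P : ℤ → Prop}

/-! ### Z1 : file Z1.lean, the maps -/

theorem admT : Adm 2 mT rT := by sorry

theorem admR : Adm 3 mR rR := by sorry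

theorem T_eq (x : ℤ) : T x = Tm 2 mT rT x := by sorry

theorem R_eq (x : ℤ) : R x = Tm 3 mR rR x := by sorry

theorem T_pos {x : ℤ} (h : 1 ≤ x) : 1 ≤ T x := by sorry

theorem R_pos {x : ℤ} (h : 1 ≤ x) : 1 ≤ R x := by sorry

theorem T_neg {x : ℤ} (h : x ≤ 0) : T x ≤ 0 := by sorry

theorem R_neg {x : ℤ} (h : x ≤ 0) : R x ≤ 0 := by sorry

theorem T_gr {x : ℤ} (h : 1 ≤ x) : x ≤ 2 * T x := by sorry

theorem R_gr {x : ℤ} (h : 1 ≤ x) : x ≤ 3 * R x := by sorry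

theorem T_double (x : ℤ) : T (2 * x) = x := by sorry

theorem R_triple (x : ℤ) : R (3 * x) = x := by sorry

theorem PP_T : PP 2 mT = 3 := by sorry

theorem PP_R : PP 3 mR = 8 := by sorry

/-- membership in `tr` without the bound -/
theorem mem_tr {S : ℤ → ℤ} {D : ℤ} (hD : 2 ≤ D) (hpos : ∀ x, 1 ≤ x → 1 ≤ S x)
    (hgr : ∀ x, 1 ≤ x → x ≤ D * S x) {k : ℕ} {x y : ℤ} :
    x ∈ tr S D k y ↔ 1 ≤ x ∧ S^[k] x = y := by sorry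

/-! ### Z2 : file Z2.lean, reachable points along `T` and `R` (uses Z1) -/

theorem P_T (h : Cl P) {x : ℤ} (hx : 1 ≤ x) (hP : P x) : P (T x) := by sorry

theorem P_T_iter (h : Cl P) {x : ℤ} (hx : 1 ≤ x) (k : ℕ) (hP : P x) : P (T^[k] x) := by sorry

/-- for odd `x`: if `R x` stands for a reachable point then so does `x` -/
theorem P_R (h : Cl P) {x : ℤ} (hx : 1 ≤ x) (ho : x % 2 = 1) (hP : P ((3 * R x + 1) / 2)) :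
    P ((3 * x + 1) / 2) := by sorry

/-- `R` preserves odd numbers -/
theorem R_odd {x : ℤ} (ho : x % 2 = 1) : R x % 2 = 1 := by sorry

/-- the quantity `Q` of `exits` for `R` -/
theorem Q_R (h : Cl P) {x : ℤ} (hx : 1 ≤ x) (hQ : x % 2 = 1 ∧ ¬ P ((3 * x + 1) / 2)) :
    R x % 2 = 1 ∧ ¬ P ((3 * R x + 1) / 2) := by sorry

/-- along a preimage: if `R^k x = y` is odd and `y` stands for a reachable point, then so does `x`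
if `x` is odd -/
theorem P_R_iter (h : Cl P) {x y : ℤ} (hx : 1 ≤ x) {k : ℕ} (hk : R^[k] x = y)
    (hP : P ((3 * y + 1) / 2)) (ho : x % 2 = 1) : P ((3 * x + 1) / 2) := by sorry

/-! ### Z3 : file Z3.lean, uniform tree sums in one residue class (uses PO: `good_class`,
`pre_mul`, `pre_iter`, `pre_inj`, `NB.off`) -/

theorem tree_good {d : ℕ} {m r : ℕ → ℤ} (h : Adm d m r) (hm : ∀ i < d, 0 < m i)
    (hpos : ∀ x : ℤ, 1 ≤ x → 1 ≤ Tm d m r x) (hneg : ∀ x : ℤ, x ≤ 0 → Tm d m r x ≤ 0)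
    (hgr : ∀ x : ℤ, 1 ≤ x → x ≤ d * Tm d m r x) :
    ∃ (N : ℕ) (y₀ : ℤ) (c : ℝ), 0 < c ∧ ∀ y : ℤ, 1 ≤ y → (PP d m : ℤ) ^ N ∣ y - y₀ →
      TB (Tm d m r) d c N y := by sorry

/-! ### Z4 : file Z4.lean, powers of 2 mod `3^N` -/

theorem pow_two (N : ℕ) (u v : ℤ) (hu : ¬ (3 : ℤ) ∣ u) (hv : ¬ (3 : ℤ) ∣ v) :
    ∃ j : ℕ, (3 : ℤ) ^ N ∣ 2 ^ j * u - v := by sorry

theorem hitT (N : ℕ) (v : ℤ) (hv : ¬ (3 : ℤ) ∣ v) :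
    ∃ J : ℕ, ∀ y : ℤ, ¬ (3 : ℤ) ∣ y → ∃ j ≤ J, (3 : ℤ) ^ N ∣ 2 ^ j * y - v := by sorry

/-! ### Z5 : file Z5.lean, odd residues mod `2^M` under `R⁻¹` (uses Z1) -/

theorem pow_three (M : ℕ) (u v : ℤ) (h : (u % 8 = 1 ∨ u % 8 = 3) ∧ (v % 8 = 1 ∨ v % 8 = 3) ∨
    (u % 8 = 5 ∨ u % 8 = 7) ∧ (v % 8 = 5 ∨ v % 8 = 7)) :
    ∃ j : ℕ, (2 : ℤ) ^ M ∣ 3 ^ j * u - v := by sorry

theorem hitR (M : ℕ) (v : ℤ) (hv : v % 2 = 1) :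
    ∃ J : ℕ, ∀ y : ℤ, 1 ≤ y → y % 2 = 1 → ∃ j ≤ J, ∃ z : ℤ, 1 ≤ z ∧ z % 2 = 1 ∧ R^[j] z = y ∧
      (2 : ℤ) ^ M ∣ z - v := by sorry

/-! ### Z6 : file Z6.lean, uniform tree sums (uses Z1, Z3, Z4, Z5) -/

/-- a preimage inherits its tree -/
theorem HH_le {S : ℤ → ℤ} {D : ℤ} (hD : 2 ≤ D) (hpos : ∀ x, 1 ≤ x → 1 ≤ S x)
    (hgr : ∀ x, 1 ≤ x → x ≤ D * S x) {k j : ℕ} {z y : ℤ} (hz : 1 ≤ z) (hj : S^[j] z = y) :
    HH S D k z ≤ HH S D (k + j) y := by sorry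

theorem treeT : ∃ c : ℝ, 0 < c ∧ ∃ K : ℕ, ∀ y : ℤ, 1 ≤ y → ¬ (3 : ℤ) ∣ y → TB T 2 c K y := by sorry

theorem treeR : ∃ c : ℝ, 0 < c ∧ ∃ K : ℕ, ∀ y : ℤ, 1 ≤ y → y % 2 = 1 → TB R 3 c K y := by sorry

/-! ### Z7 : file Z7.lean, exits (uses Z1: `mem_tr`) -/

theorem exits {S : ℤ → ℤ} {D : ℤ} (hD : 2 ≤ D) (hpos : ∀ x, 1 ≤ x → 1 ≤ S x)
    (hgr : ∀ x, 1 ≤ x → x ≤ D * S x) {Q : ℤ → Prop} (hQ : ∀ x, 1 ≤ x → Q x → Q (S x))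
    {c : ℝ} {K : ℕ} (hc : 0 < c) :
    ∃ C : ℝ, ∀ F : Finset ℤ, (∀ y ∈ F, 1 ≤ y ∧ ¬ Q y ∧ Q (S y) ∧ TB S D c K y) →
      ∑ y ∈ F, 1 / (y : ℝ) ≤ C := by sorry

/-! ### Z8 : file Z8.lean, harmonically finite sets -/

theorem HF.mono {A B : Set ℕ} (h : HF B) (hAB : A ⊆ B) : HF A := by sorry

theorem HF.union {A B : Set ℕ} (hA : HF A) (hB : HF B) : HF (A ∪ B) := by sorry

/-- pull back along `q ↦ a q + b` -/
theorem HF.pull {A : Set ℕ} (h : HF A) {a b : ℕ} (ha : 1 ≤ a) : HF {q : ℕ | a * q + b ∈ A} := by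
  sorry

/-- glue the residue classes mod `a` -/
theorem HF.glue {A : Set ℕ} {a : ℕ} (ha : 1 ≤ a) (h : ∀ b < a, HF {q : ℕ | a * q + b ∈ A}) :
    HF A := by sorry

theorem HF.ld0 {A : Set ℕ} (h : HF A) : LD0 A := by sorry

theorem Near.refl (u : ℕ → ℤ) : Near P u u := by sorry

theorem Near.symm {u v : ℕ → ℤ} (h : Near P u v) : Near P v u := by sorry

theorem Near.trans {u v w : ℕ → ℤ} (h : Near P u v) (h' : Near P v w) : Near P u w := by sorry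

/-- glue for `Near` -/
theorem Near.glue {u v : ℕ → ℤ} {a : ℕ} (ha : 1 ≤ a)
    (h : ∀ b < a, Near P (fun q => u (a * q + b)) (fun q => v (a * q + b))) : Near P u v := by sorry

/-! ### Z9 : file Z9.lean, defects (uses Z1, Z2, Z6, Z7) -/

/-- doubling: `P x` but not `P (2 x)` -/
theorem defD (h : Cl P) : ∃ C : ℝ, ∀ F : Finset ℤ,
    (∀ x ∈ F, 1 ≤ x ∧ ¬ (3 : ℤ) ∣ x ∧ P x ∧ ¬ P (2 * x)) → ∑ x ∈ F, 1 / (x : ℝ) ≤ C := by sorry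

/-- `x ↦ 3 x - 1`: `P (3 x - 1)` but not `P x` -/
theorem defT (h : Cl P) : ∃ C : ℝ, ∀ F : Finset ℤ,
    (∀ x ∈ F, 1 ≤ x ∧ ¬ (3 : ℤ) ∣ x ∧ ¬ P x ∧ P (3 * x - 1)) → ∑ x ∈ F, 1 / (x : ℝ) ≤ C := by sorry

theorem nearD (h : Cl P) {a b : ℕ} (ha : 1 ≤ a) (hb : 1 ≤ b) (h3 : ∀ q : ℕ, ¬ 3 ∣ a * q + b) :
    Near P (fun q => (a : ℤ) * q + b) (fun q => 2 * ((a : ℤ) * q + b)) := by sorry

theorem nearT (h : Cl P) {a b : ℕ} (ha : 1 ≤ a) (hb : 1 ≤ b) (h3 : ∀ q : ℕ, ¬ 3 ∣ a * q + b) :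
    Near P (fun q => (a : ℤ) * q + b) (fun q => 3 * ((a : ℤ) * q + b) - 1) := by sorry

/-! ### Z10 : file Z10.lean, paths of codes (uses Z8, Z9) -/

theorem mv_sound (h : Cl P) {t : ℕ} {a b : ℕ × ℕ × ℕ} (ha : okc a = true) (hm : mv t a = some b) :
    okc b = true ∧ Near P (sq a) (sq b) := by sorry

theorem run_sound (h : Cl P) {l : List ℕ} {a b : ℕ × ℕ × ℕ} (ha : okc a = true)
    (hm : run l a = some b) : okc b = true ∧ Near P (sq a) (sq b) := by sorry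

/-! ### Z11 : file Z11.lean, the certificate (uses Z8, Z10) -/

/-- numbers in the same third of `(0, 54)`, `(54, 108)` are connected -/
theorem near108 (h : Cl P) {v w : ℕ} (hv : v < 108) (hw : w < 108) (hv3 : v % 3 ≠ 0)
    (hw3 : w % 3 ≠ 0) (hvw : v / 18 = w / 18) :
    Near P (fun q => 108 * (q : ℤ) + v) (fun q => 108 * (q : ℤ) + w) := by sorry

/-! ### Z12 : file Z12.lean, the relations for `q ↦ P (3 q + 1)` (uses Z8, Z9, Z11) -/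

theorem rel (h : Cl P) {a b c : ℕ} (h1 : (a = 3 ∧ b < 3 ∧ c < 3) ∨ (a = 6 ∧ b < 6 ∧ c < 6) ∨
    (a = 9 ∧ b < 9 ∧ c < 9)) (hb : b % 3 ≠ 0) (hc : c % 3 ≠ 0) :
    Near P (fun q => (a : ℤ) * q + b) (fun q => (a : ℤ) * q + c) := by sorry

theorem rel_two (h : Cl P) : Near P (fun q => 3 * (q : ℤ) + 1) (fun q => 3 * (q : ℤ) + 2) := by sorry

theorem bad (h : Cl P) : HF {q : ℕ |
    ¬ (P (3 * ((2 * q : ℕ) : ℤ) + 1) ↔ P (3 * (q : ℤ) + 1)) ∨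
    ¬ (P (3 * ((2 * q + 1 : ℕ) : ℤ) + 1) ↔ P (3 * (q : ℤ) + 1)) ∨
    ¬ (P (3 * ((3 * q : ℕ) : ℤ) + 1) ↔ P (3 * (q : ℤ) + 1)) ∨
    ¬ (P (3 * ((3 * q + 1 : ℕ) : ℤ) + 1) ↔ P (3 * (q : ℤ) + 1)) ∨
    ¬ (P (3 * ((3 * q + 2 : ℕ) : ℤ) + 1) ↔ P (3 * (q : ℤ) + 1))} := by sorry

/-! ### Z13 : file Z13.lean, Borel–Cantelli -/

/-- almost every `z > 0` avoids a harmonically finite set along `⌊2^j z⌋` for large `j` -/
theorem bc {A : Set ℕ} (hA : HF A) : ∀ᵐ z : ℝ, 0 < z → ∀ᶠ j : ℕ in atTop, ⌊(2 : ℝ) ^ j * z⌋₊ ∉ A := by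
  sorry

/-! ### Z14 : file Z14.lean, invariant sets on the line -/

/-- a measurable set of reals invariant under `log 2` and, almost everywhere, under `log 3` is null
or conull -/
theorem ergo (s : Set ℝ) (hs : MeasurableSet s) (h2 : ∀ t : ℝ, t + Real.log 2 ∈ s ↔ t ∈ s)
    (h3 : ∀ᵐ t : ℝ, t + Real.log 3 ∈ s ↔ t ∈ s) : (∀ᵐ t : ℝ, t ∈ s) ∨ (∀ᵐ t : ℝ, t ∉ s) := by sorry

/-! ### Z15 : file Z15.lean, from almost everywhere to densities (uses Z8) -/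

/-- if for almost every `z > 0` the numbers `⌊2^j z⌋` are eventually outside `A`, then `A` has
logarithmic density zero -/
theorem ld0_of_ae {A : Set ℕ} (h : ∀ᵐ z : ℝ, 0 < z → ∀ᶠ j : ℕ in atTop, ⌊(2 : ℝ) ^ j * z⌋₊ ∉ A) :
    LD0 A := by sorry

/-! ### Z16 : file Z16.lean, the zero-one law (uses Z13, Z14, Z15) -/

theorem zero_one (φ : ℕ → Prop) (hb : HF {q : ℕ | ¬ (φ (2 * q) ↔ φ q) ∨ ¬ (φ (2 * q + 1) ↔ φ q) ∨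
    ¬ (φ (3 * q) ↔ φ q) ∨ ¬ (φ (3 * q + 1) ↔ φ q) ∨ ¬ (φ (3 * q + 2) ↔ φ q)}) :
    LD0 {q : ℕ | φ q} ∨ LD0 {q : ℕ | ¬ φ q} := by sorry

/-! ### Z17 : file Z17.lean, positivity along the trees (uses Z1, Z6) -/

/-- general form: if the bad preimages (outside `W`) are controlled, the tree of `y` inside `W` has
positive logarithmic density -/
theorem posW {S : ℤ → ℤ} {D : ℤ} (hD : 2 ≤ D) (hpos : ∀ x, 1 ≤ x → 1 ≤ S x)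
    (hgr : ∀ x, 1 ≤ x → x ≤ D * S x) {W : ℤ → Prop} {θ C₁ : ℝ} (hθ0 : 0 ≤ θ) (hθ : θ < 1)
    (hC₁ : 0 ≤ C₁)
    (hstep : ∀ (k : ℕ) (y : ℤ), 1 ≤ y → open Classical in
      ∑ x ∈ (tr S D (k + 1) y).filter (fun x => ¬ W x), 1 / (x : ℝ)
        ≤ θ * (∑ x ∈ (tr S D k y).filter (fun x => ¬ W x), 1 / (x : ℝ))
          + C₁ * (∑ x ∈ (tr S D k y).filter (fun x => W x), 1 / (x : ℝ)))
    {y : ℤ} (hy : 1 ≤ y) (hW : W y) (hper : ∀ p : ℕ, 1 ≤ p → S^[p] y ≠ y) {c : ℝ} {K : ℕ}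
    (hc : 0 < c) (hTB : TB S D c K y) :
    ∃ (c' : ℝ) (K' : ℕ), 0 < c' ∧ ∀ k : ℕ, K' ≤ k → ∃ F : Finset ℤ,
      (∀ x ∈ F, 1 ≤ x ∧ x ≤ D ^ k * y ∧ W x ∧ ∃ j : ℕ, S^[j] x = y) ∧
      c' * k ≤ ∑ x ∈ F, 1 / (x : ℝ) := by sorry

open scoped Classical in
theorem stepT (k : ℕ) (y : ℤ) (hy : 1 ≤ y) :
    ∑ x ∈ (tr T 2 (k + 1) y).filter (fun x => ¬ ¬ (3 : ℤ) ∣ x), 1 / (x : ℝ)
      ≤ (1 / 2) * (∑ x ∈ (tr T 2 k y).filter (fun x => ¬ ¬ (3 : ℤ) ∣ x), 1 / (x : ℝ))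
        + (3 / 2) * (∑ x ∈ (tr T 2 k y).filter (fun x => ¬ (3 : ℤ) ∣ x), 1 / (x : ℝ)) := by sorry

open scoped Classical in
theorem stepR (k : ℕ) (y : ℤ) (hy : 1 ≤ y) :
    ∑ x ∈ (tr R 3 (k + 1) y).filter (fun x => ¬ x % 2 = 1), 1 / (x : ℝ)
      ≤ (1 / 3) * (∑ x ∈ (tr R 3 k y).filter (fun x => ¬ x % 2 = 1), 1 / (x : ℝ))
        + 3 * (∑ x ∈ (tr R 3 k y).filter (fun x => x % 2 = 1), 1 / (x : ℝ)) := by sorry

/-! ### Z18 : file Z18.lean, positive densities (uses Z2, Z6, Z8, Z12, Z17) -/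

theorem LD0.mono {A B : Set ℕ} (h : LD0 B) (hAB : A ⊆ B) : LD0 A := by sorry

theorem LD0.union {A B : Set ℕ} (hA : LD0 A) (hB : LD0 B) : LD0 (A ∪ B) := by sorry

theorem posB (h : Cl P) {x₀ : ℤ} (h1 : 1 ≤ x₀) (h3 : ¬ (3 : ℤ) ∣ x₀) (hP : ¬ P x₀) :
    ¬ LD0 {q : ℕ | ¬ P (3 * (q : ℤ) + 1)} := by sorry

theorem posG (h : Cl P) : ¬ LD0 {q : ℕ | P (3 * (q : ℤ) + 1)} := by sorry

/-! ### Z19 : file Z19.lean, the theorem (uses Z12, Z16, Z18) -/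

theorem main (h : Cl P) {x : ℤ} (h1 : 1 ≤ x) (h3 : ¬ (3 : ℤ) ∣ x) : P x := by sorry

/-! ### Z20 : file Z20.lean, the frozen statements (uses Z19) -/

theorem reach (m : ℕ) (hm : 0 < m) (h : m % 3 = 0 ∨ m % 3 = 1) :
    Relation.ReflTransGen (fun a b : ℕ => b = 3 * a ∨ a = 2 * b + 1) 1 m := by sorry

theorem reduce (n : ℕ) (hn : 0 < n) (h : n % 3 = 0 ∨ n % 3 = 1) :
    Relation.ReflTransGen (fun a b : ℕ => (3 ∣ a ∧ b = a / 3) ∨ b = 2 * a + 1) n 1 := by sorry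

end Pool.Agent.H319IZ.Stubs
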