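import Pool.Agent.H319IZ.Defs

/-! The Isard–Zwicky problem, task Z1: the maps. -/

set_option autoImplicit false

namespace Pool.Agent.H319IZ
open Pool.Agent.H319R3.GC Pool.Agent.H319R3.PO Finset Filter Topology

theorem PP_T : PP 2 mT = 3 := by
  simp [PP, mT, Finset.prod_range_succ]

theorem PP_R : PP 3 mR = 8 := by
  simp [PP, mR, Finset.prod_range_succ]

theorem admT : Adm 2 mT rT := by
  refine ⟨le_rfl, ?_, ?_, ?_, ?_⟩
  · intro i hi
    interval_cases i
    · simp [mT]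
    · simp only [mT]
      norm_num
  · intro i hi
    interval_cases i
    · simp [mT, rT]
    · simp [mT, rT]
  · rw [PP_T]
    norm_num
  · rw [PP_T]
    norm_num

theorem admR : Adm 3 mR rR := by
  refine ⟨by norm_num, ?_, ?_, ?_, ?_⟩
  · intro i hi
    interval_cases i
    · simp only [mR]
      exact isCoprime_one_left
    · simp only [mR]
      norm_num
    · simp only [mR]
      norm_num
  · intro i hi
    interval_cases i
    · simp [mR, rR]
    · simp [mR, rR]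
    · simp only [mR, rR]
      norm_num
  · rw [PP_R]
    norm_num
  · rw [PP_R]
    norm_num

theorem T_eq (x : ℤ) : T x = Tm 2 mT rT x := by
  unfold T Tm
  rcases Int.emod_two_eq_zero_or_one x with h | h
  · have h' : x % ((2 : ℕ) : ℤ) = 0 := h
    rw [if_pos h, h']
    simp [mT, rT]
  · have h' : x % ((2 : ℕ) : ℤ) = 1 := h
    rw [if_neg (by omega), h']
    simp [mT, rT]

theorem R_eq (x : ℤ) : R x = Tm 3 mR rR x := by
  unfold R Tm
  have h : x % 3 = 0 ∨ x % 3 = 1 ∨ x % 3 = 2 := by omega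
  rcases h with h | h | h
  · have h' : x % ((3 : ℕ) : ℤ) = 0 := h
    rw [if_pos h, h']
    simp [mR, rR]
  · have h' : x % ((3 : ℕ) : ℤ) = 1 := h
    rw [if_neg (by omega), if_pos h, h']
    simp [mR, rR]
  · have h' : x % ((3 : ℕ) : ℤ) = 2 := h
    rw [if_neg (by omega), if_neg (by omega), h']
    simp [mR, rR]

theorem T_pos {x : ℤ} (h : 1 ≤ x) : 1 ≤ T x := by
  unfold T
  split_ifs <;> omega

theorem R_pos {x : ℤ} (h : 1 ≤ x) : 1 ≤ R x := by
  unfold R
  split_ifs <;> omega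

theorem T_neg {x : ℤ} (h : x ≤ 0) : T x ≤ 0 := by
  unfold T
  split_ifs <;> omega

theorem R_neg {x : ℤ} (h : x ≤ 0) : R x ≤ 0 := by
  unfold R
  split_ifs <;> omega

theorem T_gr {x : ℤ} (h : 1 ≤ x) : x ≤ 2 * T x := by
  unfold T
  split_ifs <;> omega

theorem R_gr {x : ℤ} (h : 1 ≤ x) : x ≤ 3 * R x := by
  unfold R
  split_ifs <;> omega

theorem T_double (x : ℤ) : T (2 * x) = x := by
  unfold T
  split_ifs <;> omega

theorem R_triple (x : ℤ) : R (3 * x) = x := by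
  unfold R
  split_ifs <;> omega

theorem iter_pos {S : ℤ → ℤ} (hpos : ∀ x, 1 ≤ x → 1 ≤ S x) {x : ℤ} (hx : 1 ≤ x) (k : ℕ) :
    1 ≤ S^[k] x := by
  induction k with
  | zero => simpa using hx
  | succ k ih =>
    rw [Function.iterate_succ_apply']
    exact hpos _ ih

theorem iter_gr {S : ℤ → ℤ} {D : ℤ} (hD : 2 ≤ D) (hpos : ∀ x, 1 ≤ x → 1 ≤ S x)
    (hgr : ∀ x, 1 ≤ x → x ≤ D * S x) {x : ℤ} (hx : 1 ≤ x) (k : ℕ) :
    x ≤ D ^ k * S^[k] x := by
  induction k with
  | zero => simp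
  | succ k ih =>
    rw [Function.iterate_succ_apply']
    have h1 := hgr _ (iter_pos hpos hx k)
    have h2 : 0 ≤ D ^ k := by positivity
    calc x ≤ D ^ k * S^[k] x := ih
      _ ≤ D ^ k * (D * S (S^[k] x)) := by gcongr
      _ = D ^ (k + 1) * S (S^[k] x) := by ring

/-- membership in `tr` without the bound -/
theorem mem_tr {S : ℤ → ℤ} {D : ℤ} (hD : 2 ≤ D) (hpos : ∀ x, 1 ≤ x → 1 ≤ S x)
    (hgr : ∀ x, 1 ≤ x → x ≤ D * S x) {k : ℕ} {x y : ℤ} :
    x ∈ tr S D k y ↔ 1 ≤ x ∧ S^[k] x = y := by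
  unfold tr
  rw [Finset.mem_filter, Finset.mem_Icc]
  constructor
  · rintro ⟨⟨h1, -⟩, h2⟩
    exact ⟨h1, h2⟩
  · rintro ⟨h1, h2⟩
    refine ⟨⟨h1, ?_⟩, h2⟩
    have := iter_gr hD hpos hgr h1 k
    rwa [h2] at this

end Pool.Agent.H319IZ
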