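import Pool.Agent.H319IZ.Defs

/-! Z13: Borel–Cantelli for harmonically finite sets. -/

set_option autoImplicit false

namespace Pool.Agent.H319IZ
open Pool.Agent.H319R3.GC Pool.Agent.H319R3.PO Finset Filter Topology MeasureTheory

open Classical in
/-- the weights -/
noncomputable def Z13a (A : Set ℕ) (M : ℝ) (j q : ℕ) : ℝ :=
  if q ∈ A ∧ (q : ℝ) ≤ 2 ^ j * M then (1 / 2) ^ j else 0

theorem Z13a_nonneg (A : Set ℕ) (M : ℝ) (j q : ℕ) : 0 ≤ Z13a A M j q := by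
  unfold Z13a
  split_ifs
  · positivity
  · exact le_refl _

theorem Z13_sum_le (A : Set ℕ) (M : ℝ) (hM : 1 ≤ M) (q n : ℕ) :
    ∑ j ∈ range n, Z13a A M j q ≤ max 0 (4 * M / ((q : ℝ) + 1) - 2 * (1 / 2) ^ n) := by
  induction n with
  | zero => rw [Finset.sum_range_zero]; exact le_max_left _ _
  | succ n ih =>
    rw [Finset.sum_range_succ]
    have hmono : 4 * M / ((q : ℝ) + 1) - 2 * (1 / 2) ^ n ≤
        4 * M / ((q : ℝ) + 1) - 2 * (1 / 2) ^ (n + 1) := by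
      have : ((1 : ℝ) / 2) ^ (n + 1) ≤ (1 / 2) ^ n := by
        rw [pow_succ]
        have : (0 : ℝ) < (1 / 2) ^ n := by positivity
        linarith
      linarith
    unfold Z13a
    by_cases h : q ∈ A ∧ (q : ℝ) ≤ 2 ^ n * M
    · rw [if_pos h]
      have hq : (0 : ℝ) < (q : ℝ) + 1 := by positivity
      have h2 : (1 : ℝ) ≤ 2 ^ n := one_le_pow₀ (by norm_num)
      have h1 : (1 : ℝ) ≤ 2 ^ n * M := by nlinarith
      have hpos : 0 ≤ 4 * M / ((q : ℝ) + 1) - 2 * (1 / 2) ^ n := by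
        rw [sub_nonneg, le_div_iff₀ hq]
        have h3 : (2 : ℝ) ^ n * (1 / 2) ^ n = 1 := by
          rw [← mul_pow]; norm_num
        have h4 : (0 : ℝ) < (1 / 2) ^ n := by positivity
        have h5 : (q : ℝ) + 1 ≤ 2 * (2 ^ n * M) := by linarith [h.2]
        calc 2 * (1 / 2) ^ n * ((q : ℝ) + 1) ≤ 2 * (1 / 2) ^ n * (2 * (2 ^ n * M)) := by
              apply mul_le_mul_of_nonneg_left h5
              positivity
          _ = 4 * M * (2 ^ n * (1 / 2) ^ n) := by ring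
          _ = 4 * M := by rw [h3, mul_one]
      have h6 : ∑ j ∈ range n, Z13a A M j q ≤ 4 * M / ((q : ℝ) + 1) - 2 * (1 / 2) ^ n := by
        rwa [max_eq_right hpos] at ih
      refine le_trans ?_ (le_max_right _ _)
      have h7 : ((1 : ℝ) / 2) ^ (n + 1) = (1 / 2) ^ n * (1 / 2) := pow_succ _ _
      unfold Z13a at h6
      rw [h7]
      linarith
    · rw [if_neg h, add_zero]
      exact le_trans ih (max_le_max (le_refl _) hmono)

theorem Z13_sum_le' (A : Set ℕ) (M : ℝ) (hM : 1 ≤ M) (q n : ℕ) :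
    ∑ j ∈ range n, Z13a A M j q ≤ 4 * M / ((q : ℝ) + 1) := by
  refine le_trans (Z13_sum_le A M hM q n) (max_le (by positivity) ?_)
  have : (0 : ℝ) < (1 / 2) ^ n := by positivity
  linarith

theorem Z13_sum_zero (A : Set ℕ) (M : ℝ) (q n : ℕ) (hq : q ∉ A) :
    ∑ j ∈ range n, Z13a A M j q = 0 := by
  refine Finset.sum_eq_zero fun j _ => ?_
  unfold Z13a
  rw [if_neg (fun h => hq h.1)]

theorem Z13_tsum_q {A : Set ℕ} (M : ℝ) (hM : 1 ≤ M) (q : ℕ) [Decidable (q ∈ A)] :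
    ∑' j, ENNReal.ofReal (Z13a A M j q) ≤
      if q ∈ A then ENNReal.ofReal (4 * M * (1 / ((q : ℝ) + 1))) else 0 := by
  refine ENNReal.tsum_le_of_sum_range_le fun n => ?_
  rw [← ENNReal.ofReal_sum_of_nonneg (fun j _ => Z13a_nonneg A M j q)]
  by_cases hq : q ∈ A
  · rw [if_pos hq]
    refine ENNReal.ofReal_le_ofReal ?_
    rw [mul_one_div]
    exact Z13_sum_le' A M hM q n
  · rw [if_neg hq, Z13_sum_zero A M q n hq, ENNReal.ofReal_zero]

theorem Z13_finite {A : Set ℕ} (hA : HF A) (M : ℝ) (hM : 1 ≤ M) :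
    ∑' j, ∑' q, ENNReal.ofReal (Z13a A M j q) ≠ ⊤ := by
  classical
  obtain ⟨C, hC⟩ := hA
  rw [ENNReal.tsum_comm]
  have h1 : ∑' q, ∑' j, ENNReal.ofReal (Z13a A M j q) ≤ ENNReal.ofReal (4 * M * C) := by
    refine le_trans (ENNReal.tsum_le_tsum fun q => Z13_tsum_q M hM q) ?_
    refine ENNReal.tsum_le_of_sum_range_le fun n => ?_
    rw [← Finset.sum_filter, ← ENNReal.ofReal_sum_of_nonneg (fun q _ => by positivity)]
    refine ENNReal.ofReal_le_ofReal ?_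
    rw [← Finset.mul_sum]
    refine mul_le_mul_of_nonneg_left ?_ (by positivity)
    exact hC _ fun q hq => (Finset.mem_filter.mp hq).2
  exact ne_top_of_le_ne_top ENNReal.ofReal_ne_top h1

theorem Z13_meas (A : Set ℕ) (M : ℝ) (j : ℕ) :
    volume {z : ℝ | 0 < z ∧ z ≤ M ∧ ⌊(2 : ℝ) ^ j * z⌋₊ ∈ A} ≤
      ∑' q, ENNReal.ofReal (Z13a A M j q) := by
  classical
  have h2 : (0 : ℝ) < 2 ^ j := by positivity
  have hsub : {z : ℝ | 0 < z ∧ z ≤ M ∧ ⌊(2 : ℝ) ^ j * z⌋₊ ∈ A} ⊆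
      ⋃ q : ℕ, (if q ∈ A ∧ (q : ℝ) ≤ 2 ^ j * M then
        Set.Ico ((q : ℝ) / 2 ^ j) (((q : ℝ) + 1) / 2 ^ j) else ∅) := by
    rintro z ⟨hz0, hzM, hz⟩
    refine Set.mem_iUnion.mpr ⟨⌊(2 : ℝ) ^ j * z⌋₊, ?_⟩
    have hnn : 0 ≤ (2 : ℝ) ^ j * z := by positivity
    have h3 : ((⌊(2 : ℝ) ^ j * z⌋₊ : ℕ) : ℝ) ≤ 2 ^ j * z := Nat.floor_le hnn
    have h4 : (2 : ℝ) ^ j * z < (⌊(2 : ℝ) ^ j * z⌋₊ : ℕ) + 1 := Nat.lt_floor_add_one _
    rw [if_pos ⟨hz, le_trans h3 (mul_le_mul_of_nonneg_left hzM h2.le)⟩]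
    constructor
    · rw [div_le_iff₀ h2]
      linarith
    · rw [lt_div_iff₀ h2]
      linarith
  refine le_trans (measure_mono hsub) (le_trans (measure_iUnion_le _) ?_)
  refine ENNReal.tsum_le_tsum fun q => ?_
  unfold Z13a
  by_cases h : q ∈ A ∧ (q : ℝ) ≤ 2 ^ j * M
  · rw [if_pos h, if_pos h, Real.volume_Ico]
    refine ENNReal.ofReal_le_ofReal (le_of_eq ?_)
    rw [← sub_div, add_sub_cancel_left, one_div_pow]
  · rw [if_neg h, if_neg h, measure_empty]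
    exact zero_le

/-- almost every `z > 0` avoids a harmonically finite set along `⌊2^j z⌋` for large `j` -/
theorem bc {A : Set ℕ} (hA : HF A) : ∀ᵐ z : ℝ, 0 < z → ∀ᶠ j : ℕ in atTop, ⌊(2 : ℝ) ^ j * z⌋₊ ∉ A := by
  have hM : ∀ M : ℕ, ∀ᵐ z : ℝ, ∀ᶠ j : ℕ in atTop,
      z ∉ {z : ℝ | 0 < z ∧ z ≤ ((M + 1 : ℕ) : ℝ) ∧ ⌊(2 : ℝ) ^ j * z⌋₊ ∈ A} := by
    intro M
    refine ae_eventually_notMem ?_
    have h1 : (1 : ℝ) ≤ ((M + 1 : ℕ) : ℝ) := by
      exact_mod_cast Nat.succ_le_succ (Nat.zero_le M)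
    exact ne_top_of_le_ne_top (Z13_finite hA _ h1)
      (ENNReal.tsum_le_tsum fun j => Z13_meas A _ j)
  filter_upwards [ae_all_iff.mpr hM] with z hz hz0
  obtain ⟨M, hMz⟩ := exists_nat_ge z
  filter_upwards [hz M] with j hj hmem
  refine hj ⟨hz0, ?_, hmem⟩
  push_cast
  linarith

end Pool.Agent.H319IZ
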