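import Mathlib

/-! Z14: invariant sets on the line.  Owner: helper202. -/

set_option autoImplicit false

namespace Pool.Agent.H319IZ
open Finset Filter Topology MeasureTheory

namespace Z14

theorem log_irr (n : ℕ) (hn : 0 < n) (m : ℤ) : (m : ℝ) * Real.log 2 ≠ n * Real.log 3 := by
  intro h
  have h2 : 0 < Real.log 2 := Real.log_pos (by norm_num)
  have h3 : 0 < Real.log 3 := Real.log_pos (by norm_num)
  have hn' : (0 : ℝ) < n := Nat.cast_pos.2 hn
  have hm : (0 : ℝ) < m := by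
    by_contra hcon
    push Not at hcon
    have h4 : (m : ℝ) * Real.log 2 ≤ 0 := mul_nonpos_of_nonpos_of_nonneg hcon h2.le
    have h5 : (0 : ℝ) < n * Real.log 3 := mul_pos hn' h3
    linarith
  have hm' : 0 < m := by exact_mod_cast hm
  obtain ⟨k, rfl⟩ : ∃ k : ℕ, m = k := ⟨m.toNat, (Int.toNat_of_nonneg hm'.le).symm⟩
  have hk : 0 < k := by exact_mod_cast hm'
  have h6 : Real.log ((2 : ℝ) ^ k) = Real.log ((3 : ℝ) ^ n) := by
    rw [Real.log_pow, Real.log_pow]
    exact_mod_cast h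
  have h7 : (2 : ℝ) ^ k = (3 : ℝ) ^ n :=
    Real.log_injOn_pos (Set.mem_Ioi.2 (by positivity)) (Set.mem_Ioi.2 (by positivity)) h6
  have h8 : (2 : ℕ) ^ k = 3 ^ n := by exact_mod_cast h7
  have h9 : (2 : ℕ) ∣ 3 ^ n := by
    rw [← h8]
    exact dvd_pow_self 2 hk.ne'
  have h10 : (2 : ℕ) ∣ 3 := Nat.Prime.dvd_of_dvd_pow Nat.prime_two h9
  omega

theorem period (s : Set ℝ) (p : ℝ) (h2 : ∀ t : ℝ, t + p ∈ s ↔ t ∈ s) (n : ℤ) (t : ℝ) :
    t + n * p ∈ s ↔ t ∈ s := by
  induction n using Int.induction_on with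
  | zero => simp
  | succ n ih =>
    rw [← ih, ← h2 (t + (n : ℤ) * p)]
    have : t + ((n : ℤ) : ℝ) * p + p = t + (((n : ℤ) + 1 : ℤ) : ℝ) * p := by push_cast; ring
    rw [this]
  | pred n ih =>
    rw [← ih, ← h2 (t + ((-(n : ℤ) - 1 : ℤ) : ℝ) * p)]
    have : t + ((-(n : ℤ) - 1 : ℤ) : ℝ) * p + p = t + ((-(n : ℤ) : ℤ) : ℝ) * p := by
      push_cast; ring
    rw [this]

/-- a.e. statements on the circle give a.e. statements on the line -/
theorem ae_line (p : ℝ) [hp : Fact (0 < p)] (Q : AddCircle p → Prop) (h : ∀ᵐ x, Q x) :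
    ∀ᵐ t : ℝ, Q (t : AddCircle p) := by
  have h1 : ∀ a : ℝ, ∀ᵐ t : ℝ ∂(volume.restrict (Set.Ioc a (a + p))), Q (t : AddCircle p) := fun a =>
    (AddCircle.measurePreserving_mk p a).quasiMeasurePreserving.ae h
  have h2 : ∀ᵐ t : ℝ ∂((volume : Measure ℝ).restrict
      (⋃ n : ℤ, Set.Ioc (0 + n • p) (0 + (n + 1) • p))), Q (t : AddCircle p) := by
    rw [ae_restrict_iUnion_iff]
    intro n
    have := h1 (0 + n • p)
    have e : 0 + n • p + p = 0 + (n + 1) • p := by rw [add_smul, one_smul]; ring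
    rwa [e] at this
  rw [iUnion_Ioc_add_zsmul hp.out, Measure.restrict_univ] at h2
  exact h2

end Z14

/-- a measurable set of reals invariant under `log 2` and, almost everywhere, under `log 3` is null
or conull -/
theorem ergo (s : Set ℝ) (hs : MeasurableSet s) (h2 : ∀ t : ℝ, t + Real.log 2 ∈ s ↔ t ∈ s)
    (h3 : ∀ᵐ t : ℝ, t + Real.log 3 ∈ s ↔ t ∈ s) : (∀ᵐ t : ℝ, t ∈ s) ∨ (∀ᵐ t : ℝ, t ∉ s) := by
  obtain ⟨p, hpe⟩ : ∃ p : ℝ, p = Real.log 2 := ⟨_, rfl⟩
  have hp0 : 0 < p := by rw [hpe]; exact Real.log_pos (by norm_num)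
  have hp : Fact (0 < p) := ⟨hp0⟩
  rw [← hpe] at h2
  obtain ⟨s', hs'⟩ : ∃ s' : Set (AddCircle p),
    s' = {x | ((AddCircle.measurableEquivIoc p 0 x : Set.Ioc (0 : ℝ) (0 + p)) : ℝ) ∈ s} := ⟨_, rfl⟩
  have hmeas : MeasurableSet s' := by
    rw [hs']
    exact (measurable_subtype_coe.comp (AddCircle.measurableEquivIoc p 0).measurable) hs
  have hmem : ∀ t : ℝ, (t : AddCircle p) ∈ s' ↔ t ∈ s := by
    intro t
    rw [hs']
    show ((AddCircle.equivIoc p 0 (t : AddCircle p) : Set.Ioc (0 : ℝ) (0 + p)) : ℝ) ∈ s ↔ t ∈ s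
    obtain ⟨r, hr⟩ : ∃ r : ℝ,
      r = ((AddCircle.equivIoc p 0 (t : AddCircle p) : Set.Ioc (0 : ℝ) (0 + p)) : ℝ) := ⟨_, rfl⟩
    rw [← hr]
    have h4 : (r : AddCircle p) = (t : AddCircle p) := by
      rw [hr]
      exact AddCircle.coe_equivIoc
    have h5 : ((t - r : ℝ) : AddCircle p) = 0 := by
      rw [AddCircle.coe_sub, h4, sub_self]
    obtain ⟨n, hn⟩ := AddCircle.coe_eq_zero_iff p |>.1 h5
    have h6 : t = r + n * p := by
      rw [zsmul_eq_mul] at hn
      linarith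
    rw [h6]
    exact (Z14.period s p h2 n r).symm
  have herg : Ergodic ((((Real.log 3 : ℝ) : AddCircle p)) + ·) := by
    rw [AddCircle.ergodic_add_left, addOrderOf_eq_zero_iff']
    intro n hn h4
    rw [← AddCircle.coe_nsmul, AddCircle.coe_eq_zero_iff] at h4
    obtain ⟨m, hm⟩ := h4
    apply Z14.log_irr n hn m
    rw [zsmul_eq_mul, nsmul_eq_mul, hpe] at hm
    exact hm
  have hinv : ((((Real.log 3 : ℝ) : AddCircle p)) + ·) ⁻¹' s' =ᵐ[volume] s' := by
    have hB : MeasurableSet {x : AddCircle p |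
        ((((Real.log 3 : ℝ) : AddCircle p)) + x ∈ s' ↔ x ∈ s')} := by
      have hm1 : MeasurableSet ((((Real.log 3 : ℝ) : AddCircle p) + ·) ⁻¹' s') :=
        (measurable_const_add _) hmeas
      have e : {x : AddCircle p | ((((Real.log 3 : ℝ) : AddCircle p)) + x ∈ s' ↔ x ∈ s')} =
          (((((Real.log 3 : ℝ) : AddCircle p) + ·) ⁻¹' s') ∩ s') ∪
            (((((Real.log 3 : ℝ) : AddCircle p) + ·) ⁻¹' s')ᶜ ∩ s'ᶜ) := by
        ext x
        simp only [Set.mem_ofPred_eq, Set.mem_union, Set.mem_inter_iff, Set.mem_preimage,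
          Set.mem_compl_iff]
        tauto
      rw [e]
      exact (hm1.inter hmeas).union (hm1.compl.inter hmeas.compl)
    have h4 : ∀ᵐ x : AddCircle p, ((((Real.log 3 : ℝ) : AddCircle p)) + x ∈ s' ↔ x ∈ s') := by
      rw [← (AddCircle.measurePreserving_mk p 0).map_eq,
        ae_map_iff (AddCircle.measurePreserving_mk p 0).measurable.aemeasurable hB]
      refine ae_restrict_of_ae ?_
      filter_upwards [h3] with t ht
      rw [← AddCircle.coe_add, hmem, hmem, add_comm]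
      exact ht
    filter_upwards [h4] with x hx
    exact propext hx
  rcases herg.quasiErgodic.ae_empty_or_univ₀ hmeas.nullMeasurableSet hinv with h4 | h4
  · right
    have h5 : ∀ᵐ x : AddCircle p, x ∉ s' := by
      filter_upwards [h4] with x hx hxs
      have : (∅ : Set (AddCircle p)) x := by rw [← hx]; exact hxs
      exact this
    filter_upwards [Z14.ae_line p _ h5] with t ht
    rwa [hmem] at ht
  · left
    have h5 : ∀ᵐ x : AddCircle p, x ∈ s' := by
      filter_upwards [h4] with x hx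
      have h6 : s' x = Set.univ x := hx
      have : s' x := by rw [h6]; trivial
      exact this
    filter_upwards [Z14.ae_line p _ h5] with t ht
    rwa [hmem] at ht

end Pool.Agent.H319IZ
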