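import Pool.Agent.H319IZ.Defs

/-! The Isard–Zwicky problem, task Z15: from almost everywhere to logarithmic densities. -/

set_option autoImplicit false

namespace Pool.Agent.H319IZ
open Pool.Agent.H319R3.GC Pool.Agent.H319R3.PO Finset Filter Topology

namespace Z15aux

open MeasureTheory

/-- reals whose `2^j`-multiple has its integer part in `A` -/
def B (A : Set ℕ) (j : ℕ) : Set ℝ := {z | ⌊(2 : ℝ) ^ j * z⌋₊ ∈ A}

/-- its measure in `[1, 2)` -/
noncomputable def Ij (A : Set ℕ) (j : ℕ) : ℝ := (volume.restrict (Set.Ico (1 : ℝ) 2)).real (B A j)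

lemma B_meas (A : Set ℕ) (j : ℕ) : MeasurableSet (B A j) := by
  have h1 : Measurable (fun z : ℝ => ⌊(2 : ℝ) ^ j * z⌋₊) :=
    Nat.measurable_floor.comp (measurable_const.mul measurable_id)
  exact h1 (MeasurableSet.of_discrete (s := A))

lemma I_tendsto {A : Set ℕ}
    (h : ∀ᵐ z : ℝ, 0 < z → ∀ᶠ j : ℕ in atTop, ⌊(2 : ℝ) ^ j * z⌋₊ ∉ A) :
    Tendsto (Ij A) atTop (𝓝 0) := by
  have h1 : ∀ j, Ij A j = ∫ z in Set.Ico (1 : ℝ) 2, (B A j).indicator (fun _ => (1 : ℝ)) z := by
    intro j
    have := integral_indicator_one (μ := volume.restrict (Set.Ico (1 : ℝ) 2)) (B_meas A j)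
    exact this.symm
  have h2 : Tendsto (fun j : ℕ => ∫ z in Set.Ico (1 : ℝ) 2,
      (B A j).indicator (fun _ => (1 : ℝ)) z) atTop (𝓝 (∫ _z in Set.Ico (1 : ℝ) 2, (0 : ℝ))) := by
    refine tendsto_integral_of_dominated_convergence (fun _ => (1 : ℝ)) ?_ ?_ ?_ ?_
    · intro j
      exact (measurable_const.indicator (B_meas A j)).aestronglyMeasurable
    · exact integrable_const _
    · intro j
      refine ae_of_all _ fun z => ?_
      by_cases hz : z ∈ B A j
      · rw [Set.indicator_of_mem hz]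
        simp
      · rw [Set.indicator_of_notMem hz]
        simp
    · filter_upwards [ae_restrict_of_ae h, ae_restrict_mem measurableSet_Ico] with z hz hz2
      have h3 := hz (by linarith [hz2.1])
      refine tendsto_const_nhds.congr' ?_
      filter_upwards [h3] with j hj
      rw [Set.indicator_of_notMem]
      exact hj
  rw [integral_zero] at h2
  exact h2.congr fun j => (h1 j).symm

lemma I_le_one (A : Set ℕ) (j : ℕ) : Ij A j ≤ 1 := by
  unfold Ij
  refine (measureReal_mono (Set.subset_univ _)).trans ?_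
  simp
  norm_num

lemma low (A : Set ℕ) (j : ℕ) (S : Finset ℕ)
    (hS : ∀ q ∈ S, q ∈ A ∧ 2 ^ j ≤ q ∧ q < 2 ^ (j + 1)) :
    ∑ q ∈ S, 1 / ((q : ℝ) + 1) ≤ Ij A j := by
  set W : ℕ → Set ℝ := fun q => Set.Ico ((q : ℝ) / 2 ^ j) (((q : ℝ) + 1) / 2 ^ j) with hW
  have h2j : (0 : ℝ) < 2 ^ j := by positivity
  have hsub : ∀ q ∈ S, W q ⊆ Set.Ico (1 : ℝ) 2 := by
    intro q hq z hz
    obtain ⟨-, h1, h2⟩ := hS q hq
    have h1' : (2 : ℝ) ^ j ≤ q := by exact_mod_cast h1
    have h2' : (q : ℝ) + 1 ≤ 2 ^ (j + 1) := by exact_mod_cast h2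
    refine ⟨?_, ?_⟩
    · refine le_trans ?_ hz.1
      rw [le_div_iff₀ h2j]
      linarith
    · refine lt_of_lt_of_le hz.2 ?_
      rw [div_le_iff₀ h2j]
      rw [pow_succ] at h2'
      linarith
  have hfloor : ∀ q : ℕ, ∀ z ∈ W q, ⌊(2 : ℝ) ^ j * z⌋₊ = q := by
    intro q z hz
    have h1 : (q : ℝ) ≤ 2 ^ j * z := by
      have := hz.1
      rw [div_le_iff₀ h2j] at this
      linarith
    have h2 : 2 ^ j * z < (q : ℝ) + 1 := by
      have := hz.2
      rw [lt_div_iff₀ h2j] at this
      linarith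
    rw [Nat.floor_eq_iff (le_trans (by positivity) h1)]
    exact ⟨h1, h2⟩
  have hvol : ∀ q ∈ S, 1 / ((q : ℝ) + 1) ≤ (volume.restrict (Set.Ico (1 : ℝ) 2)).real (W q) := by
    intro q hq
    obtain ⟨-, h1, -⟩ := hS q hq
    have h1' : (2 : ℝ) ^ j ≤ q := by exact_mod_cast h1
    rw [measureReal_restrict_apply measurableSet_Ico, Set.inter_eq_self_of_subset_left (hsub q hq),
      Real.volume_real_Ico_of_le (by gcongr; linarith)]
    have : ((q : ℝ) + 1) / 2 ^ j - (q : ℝ) / 2 ^ j = 1 / 2 ^ j := by ring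
    rw [this]
    gcongr
    linarith
  have hdisj : Set.PairwiseDisjoint (S : Set ℕ) W := by
    intro a _ b _ hab
    rw [Function.onFun, Set.disjoint_left]
    intro z hza hzb
    exact hab ((hfloor a z hza).symm.trans (hfloor b z hzb))
  calc ∑ q ∈ S, 1 / ((q : ℝ) + 1) ≤ ∑ q ∈ S, (volume.restrict (Set.Ico (1 : ℝ) 2)).real (W q) :=
        Finset.sum_le_sum hvol
    _ = (volume.restrict (Set.Ico (1 : ℝ) 2)).real (⋃ q ∈ S, W q) := by
        rw [measureReal_biUnion_finset hdisj (fun _ _ => measurableSet_Ico)]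
    _ ≤ Ij A j := by
        unfold Ij
        refine measureReal_mono ?_
        intro z hz
        simp only [Set.mem_iUnion] at hz
        obtain ⟨q, hq, hz⟩ := hz
        show ⌊(2 : ℝ) ^ j * z⌋₊ ∈ A
        rw [hfloor q z hz]
        exact (hS q hq).1

end Z15aux

open Z15aux

/-- if for almost every `z > 0` the numbers `⌊2^j z⌋` are eventually outside `A`, then `A` has
logarithmic density zero -/
theorem ld0_of_ae {A : Set ℕ} (h : ∀ᵐ z : ℝ, 0 < z → ∀ᶠ j : ℕ in atTop, ⌊(2 : ℝ) ^ j * z⌋₊ ∉ A) :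
    LD0 A := by
  classical
  intro ε hε
  have hl2 : 0 < Real.log 2 := Real.log_pos (by norm_num)
  set δ : ℝ := ε * Real.log 2 / 2 with hδ
  have hδ0 : 0 < δ := by positivity
  have hI := I_tendsto h
  obtain ⟨J, hJ⟩ := Filter.eventually_atTop.1 (hI.eventually (gt_mem_nhds hδ0))
  have hlog : Tendsto (fun X : ℕ => Real.log (X : ℝ)) atTop atTop :=
    Real.tendsto_log_atTop.comp tendsto_natCast_atTop_atTop
  obtain ⟨X₁, hX₁⟩ := Filter.eventually_atTop.1
    (hlog.eventually_ge_atTop ((1 + J + δ) / (ε / 2)))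
  refine ⟨max X₁ 1, fun X hX F hF => ?_⟩
  have hX1 : 1 ≤ X := le_trans (le_max_right _ _) hX
  have hlX := hX₁ X (le_trans (le_max_left _ _) hX)
  rw [div_le_iff₀ (by positivity)] at hlX
  -- decomposition
  have hnn : ∀ q : ℕ, 0 ≤ 1 / ((q : ℝ) + 1) := fun q => by positivity
  have h1 : ∑ q ∈ F, 1 / ((q : ℝ) + 1) ≤ 1 + ∑ q ∈ F.filter (fun q => q ≠ 0), 1 / ((q : ℝ) + 1) := by
    rw [← Finset.sum_filter_add_sum_filter_not F (fun q => q = 0)]
    refine add_le_add ?_ le_rfl
    calc ∑ q ∈ F.filter (fun q => q = 0), 1 / ((q : ℝ) + 1) ≤ ∑ q ∈ ({0} : Finset ℕ), 1 / ((q : ℝ) + 1) := by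
          refine Finset.sum_le_sum_of_subset_of_nonneg ?_ (fun q _ _ => hnn q)
          intro q hq
          rw [Finset.mem_filter] at hq
          rw [Finset.mem_singleton]
          exact hq.2
      _ = 1 := by simp
  set n := Nat.log 2 X with hn
  have hmaps : ∀ q ∈ F.filter (fun q => q ≠ 0), Nat.log 2 q ∈ Finset.range (n + 1) := by
    intro q hq
    rw [Finset.mem_filter] at hq
    rw [Finset.mem_range]
    have := Nat.log_mono_right (b := 2) (hF q hq.1).2.le
    omega
  have h2 : ∑ q ∈ F.filter (fun q => q ≠ 0), 1 / ((q : ℝ) + 1) ≤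
      ∑ j ∈ Finset.range (n + 1), Ij A j := by
    rw [← Finset.sum_fiberwise_of_maps_to hmaps]
    refine Finset.sum_le_sum fun j _ => ?_
    apply low
    intro q hq
    rw [Finset.mem_filter, Finset.mem_filter] at hq
    obtain ⟨⟨hq1, hq2⟩, hq3⟩ := hq
    refine ⟨(hF q hq1).1, ?_, ?_⟩
    · rw [← hq3]
      exact Nat.pow_log_le_self 2 hq2
    · rw [← hq3]
      exact Nat.lt_pow_succ_log_self (by norm_num) q
  have h3 : ∑ j ∈ Finset.range (n + 1), Ij A j ≤ J + δ * (n + 1) := by
    calc ∑ j ∈ Finset.range (n + 1), Ij A j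
        ≤ ∑ j ∈ Finset.range (n + 1), ((if j < J then (1 : ℝ) else 0) + δ) := by
          refine Finset.sum_le_sum fun j _ => ?_
          split_ifs with hj
          · linarith [I_le_one A j]
          · have := hJ j (by omega)
            linarith
      _ = ∑ j ∈ Finset.range (n + 1), (if j < J then (1 : ℝ) else 0) + δ * (n + 1) := by
          rw [Finset.sum_add_distrib]
          congr 1
          rw [Finset.sum_const, Finset.card_range, nsmul_eq_mul]
          push_cast
          ring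
      _ ≤ J + δ * (n + 1) := by
          refine add_le_add ?_ le_rfl
          rw [← Finset.sum_filter, Finset.sum_const, nsmul_eq_mul, mul_one]
          have : ((Finset.range (n + 1)).filter (fun j => j < J)) ⊆ Finset.range J := by
            intro j hj
            rw [Finset.mem_filter] at hj
            exact Finset.mem_range.2 hj.2
          have h4 := Finset.card_le_card this
          rw [Finset.card_range] at h4
          exact_mod_cast h4
  have h5 : (n : ℝ) * Real.log 2 ≤ Real.log X := by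
    have h6 : 2 ^ n ≤ X := Nat.pow_log_le_self 2 (by omega)
    have h7 : ((2 : ℝ) ^ n) ≤ X := by exact_mod_cast h6
    have h8 := Real.log_le_log (by positivity) h7
    rwa [Real.log_pow] at h8
  have h6 : δ * n ≤ ε / 2 * Real.log X := by
    rw [hδ]
    calc ε * Real.log 2 / 2 * n = ε / 2 * (n * Real.log 2) := by ring
      _ ≤ ε / 2 * Real.log X := by gcongr
  calc ∑ q ∈ F, 1 / ((q : ℝ) + 1) ≤ 1 + (J + δ * (n + 1)) := by linarith
    _ = (1 + J + δ) + δ * n := by ring
    _ ≤ Real.log X * (ε / 2) + ε / 2 * Real.log X := by linarith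
    _ = ε * Real.log X := by ring

end Pool.Agent.H319IZ
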