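import Pool.Agent.H319IZ.Defs

set_option autoImplicit false

namespace Pool.Agent.H319IZ
open Pool.Agent.H319R3.GC Pool.Agent.H319R3.PO Finset Filter Topology

namespace Z16x
open MeasureTheory

/-- almost every positive number transfers to almost every logarithm -/
lemma ae_exp {Q : ℝ → Prop} (h : ∀ᵐ z : ℝ, 0 < z → Q z) : ∀ᵐ t : ℝ, Q (Real.exp t) := by
  rw [ae_iff] at h ⊢
  have h1 : volume (Real.log '' {z : ℝ | ¬ (0 < z → Q z)}) = 0 := by
    apply MeasureTheory.addHaar_image_eq_zero_of_differentiableOn_of_addHaar_eq_zero _ _ h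
    intro z hz
    simp only [Set.mem_ofPred_eq, Classical.not_imp] at hz
    exact (Real.differentiableAt_log hz.1.ne').differentiableWithinAt
  apply measure_mono_null _ h1
  intro t ht
  refine ⟨Real.exp t, ?_, Real.log_exp t⟩
  simp only [Set.mem_ofPred_eq, Classical.not_imp]
  exact ⟨Real.exp_pos t, ht⟩

lemma ae_log {Q : ℝ → Prop} (h : ∀ᵐ t : ℝ, Q (Real.exp t)) : ∀ᵐ z : ℝ, 0 < z → Q z := by
  rw [ae_iff] at h ⊢
  have h1 : volume (Real.exp '' {t : ℝ | ¬ Q (Real.exp t)}) = 0 := by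
    apply MeasureTheory.addHaar_image_eq_zero_of_differentiableOn_of_addHaar_eq_zero _ _ h
    intro z _
    exact Real.differentiable_exp.differentiableAt.differentiableWithinAt
  apply measure_mono_null _ h1
  intro z hz
  simp only [Set.mem_ofPred_eq, Classical.not_imp] at hz
  refine ⟨Real.log z, ?_, Real.exp_log hz.1⟩
  simp only [Set.mem_ofPred_eq, Real.exp_log hz.1]
  exact hz.2

lemma floor_mul (w : ℝ) (hw : 0 ≤ w) (a : ℕ) (ha : 1 ≤ a) :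
    ∃ i < a, ⌊(a : ℝ) * w⌋₊ = a * ⌊w⌋₊ + i := by
  have h1 : a * ⌊w⌋₊ ≤ ⌊(a : ℝ) * w⌋₊ := by
    apply Nat.le_floor
    push_cast
    exact mul_le_mul_of_nonneg_left (Nat.floor_le hw) (Nat.cast_nonneg a)
  have h2 : ⌊(a : ℝ) * w⌋₊ < a * ⌊w⌋₊ + a := by
    rw [Nat.floor_lt (by positivity)]
    push_cast
    have := Nat.lt_floor_add_one w
    have ha' : (0 : ℝ) < a := by exact_mod_cast ha
    nlinarith
  exact ⟨⌊(a : ℝ) * w⌋₊ - a * ⌊w⌋₊, by omega, by omega⟩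

end Z16x

open Z16x MeasureTheory in
theorem zero_one_of
    (bc : ∀ {A : Set ℕ}, HF A → ∀ᵐ z : ℝ, 0 < z → ∀ᶠ j : ℕ in atTop, ⌊(2 : ℝ) ^ j * z⌋₊ ∉ A)
    (ergo : ∀ (s : Set ℝ), MeasurableSet s → (∀ t : ℝ, t + Real.log 2 ∈ s ↔ t ∈ s) →
      (∀ᵐ t : ℝ, t + Real.log 3 ∈ s ↔ t ∈ s) → (∀ᵐ t : ℝ, t ∈ s) ∨ (∀ᵐ t : ℝ, t ∉ s))
    (ld0_of_ae : ∀ {A : Set ℕ},
      (∀ᵐ z : ℝ, 0 < z → ∀ᶠ j : ℕ in atTop, ⌊(2 : ℝ) ^ j * z⌋₊ ∉ A) → LD0 A)
    (φ : ℕ → Prop) (hb : HF {q : ℕ | ¬ (φ (2 * q) ↔ φ q) ∨ ¬ (φ (2 * q + 1) ↔ φ q) ∨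
    ¬ (φ (3 * q) ↔ φ q) ∨ ¬ (φ (3 * q + 1) ↔ φ q) ∨ ¬ (φ (3 * q + 2) ↔ φ q)}) :
    LD0 {q : ℕ | φ q} ∨ LD0 {q : ℕ | ¬ φ q} := by
  have hbc := ae_exp (bc hb)
  have hg3 : ∀ᵐ t : ℝ, ∀ᶠ j : ℕ in atTop,
      (φ ⌊(2 : ℝ) ^ j * Real.exp (t + Real.log 3)⌋₊ ↔ φ ⌊(2 : ℝ) ^ j * Real.exp t⌋₊) := by
    filter_upwards [hbc] with t ht
    filter_upwards [ht] with j hj
    simp only [Set.mem_ofPred_eq, not_or, not_not] at hj
    obtain ⟨i, hi, he⟩ := floor_mul ((2 : ℝ) ^ j * Real.exp t) (by positivity) 3 (by norm_num)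
    have e1 : (2 : ℝ) ^ j * Real.exp (t + Real.log 3) = ((3 : ℕ) : ℝ) * ((2 : ℝ) ^ j * Real.exp t) := by
      rw [Real.exp_add, Real.exp_log (by norm_num)]
      push_cast
      ring
    rw [e1, he]
    interval_cases i
    · exact hj.2.2.1
    · exact hj.2.2.2.1
    · exact hj.2.2.2.2
  have hg2 : ∀ᵐ t : ℝ, ∀ᶠ j : ℕ in atTop,
      (φ ⌊(2 : ℝ) ^ (j + 1) * Real.exp t⌋₊ ↔ φ ⌊(2 : ℝ) ^ j * Real.exp t⌋₊) := by
    filter_upwards [hbc] with t ht
    filter_upwards [ht] with j hj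
    simp only [Set.mem_ofPred_eq, not_or, not_not] at hj
    obtain ⟨i, hi, he⟩ := floor_mul ((2 : ℝ) ^ j * Real.exp t) (by positivity) 2 (by norm_num)
    have e1 : (2 : ℝ) ^ (j + 1) * Real.exp t = ((2 : ℕ) : ℝ) * ((2 : ℝ) ^ j * Real.exp t) := by
      push_cast
      ring
    rw [e1, he]
    interval_cases i
    · exact hj.1
    · exact hj.2.1
  have hconst : ∀ᵐ t : ℝ, (∀ᶠ j : ℕ in atTop, φ ⌊(2 : ℝ) ^ j * Real.exp t⌋₊) ∨
      (∀ᶠ j : ℕ in atTop, ¬ φ ⌊(2 : ℝ) ^ j * Real.exp t⌋₊) := by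
    filter_upwards [hg2] with t ht
    obtain ⟨J, hJ⟩ := eventually_atTop.mp ht
    have hall : ∀ k : ℕ, (φ ⌊(2 : ℝ) ^ (J + k) * Real.exp t⌋₊ ↔ φ ⌊(2 : ℝ) ^ J * Real.exp t⌋₊) := by
      intro k
      induction k with
      | zero => rfl
      | succ k ih =>
        rw [← ih]
        exact hJ (J + k) (by omega)
    by_cases h0 : φ ⌊(2 : ℝ) ^ J * Real.exp t⌋₊
    · left
      rw [eventually_atTop]
      refine ⟨J, fun j hj => ?_⟩
      obtain ⟨k, rfl⟩ := Nat.exists_eq_add_of_le hj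
      exact (hall k).mpr h0
    · right
      rw [eventually_atTop]
      refine ⟨J, fun j hj => ?_⟩
      obtain ⟨k, rfl⟩ := Nat.exists_eq_add_of_le hj
      exact fun h => h0 ((hall k).mp h)
  set s : Set ℝ := {t | ∀ᶠ j : ℕ in atTop, φ ⌊(2 : ℝ) ^ j * Real.exp t⌋₊} with hs
  have hmeas : MeasurableSet s := by
    have : s = ⋃ J : ℕ, ⋂ j : ℕ, ⋂ (_ : J ≤ j),
        (fun t : ℝ => ⌊(2 : ℝ) ^ j * Real.exp t⌋₊) ⁻¹' {q | φ q} := by
      ext t
      simp only [hs, Set.mem_ofPred_eq, eventually_atTop, Set.mem_iUnion, Set.mem_iInter,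
        Set.mem_preimage, ge_iff_le]
    rw [this]
    refine MeasurableSet.iUnion fun J => MeasurableSet.iInter fun j => MeasurableSet.iInter fun _ => ?_
    have hm : Measurable (fun t : ℝ => ⌊(2 : ℝ) ^ j * Real.exp t⌋₊) :=
      Nat.measurable_floor.comp (Real.measurable_exp.const_mul _)
    exact hm (MeasurableSet.of_discrete)
  have h2 : ∀ t : ℝ, t + Real.log 2 ∈ s ↔ t ∈ s := by
    intro t
    simp only [hs, Set.mem_ofPred_eq]
    conv_rhs => rw [← Filter.map_add_atTop_eq_nat 1]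
    rw [eventually_map]
    apply eventually_congr
    filter_upwards with j
    have e1 : (2 : ℝ) ^ j * Real.exp (t + Real.log 2) = (2 : ℝ) ^ (j + 1) * Real.exp t := by
      rw [Real.exp_add, Real.exp_log (by norm_num)]
      ring
    rw [e1]
  have h3 : ∀ᵐ t : ℝ, t + Real.log 3 ∈ s ↔ t ∈ s := by
    filter_upwards [hg3] with t ht
    exact eventually_congr ht
  rcases ergo s hmeas h2 h3 with h | h
  · right
    apply ld0_of_ae
    apply ae_log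
    filter_upwards [h] with t ht
    filter_upwards [ht] with j hj
    simpa using hj
  · left
    apply ld0_of_ae
    apply ae_log
    filter_upwards [h, hconst] with t ht htc
    rcases htc with htc | htc
    · exact absurd htc ht
    · filter_upwards [htc] with j hj
      simpa using hj

end Pool.Agent.H319IZ
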