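import Pool.Agent.H319IZ.Defs

/-!
# Z17: positivity along the trees
-/

set_option autoImplicit false

namespace Pool.Agent.H319IZ
open Pool.Agent.H319R3.GC Pool.Agent.H319R3.PO Finset Filter Topology

variable {P : ℤ → Prop}

theorem z17_gr {S : ℤ → ℤ} {D : ℤ} (hD : 2 ≤ D) (hpos : ∀ x, 1 ≤ x → 1 ≤ S x)
    (hgr : ∀ x, 1 ≤ x → x ≤ D * S x) (k : ℕ) : ∀ x, 1 ≤ x → x ≤ D ^ k * S^[k] x := by
  induction k with
  | zero => intro x _; simp
  | succ k ih =>
    intro x hx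
    rw [Function.iterate_succ_apply, pow_succ']
    have h1 := hgr x hx
    have h2 := ih (S x) (hpos x hx)
    calc x ≤ D * S x := h1
      _ ≤ D * (D ^ k * S^[k] (S x)) := mul_le_mul_of_nonneg_left h2 (by omega)
      _ = D * D ^ k * S^[k] (S x) := by ring

/-- membership in `tr` without the bound -/
theorem z17_mem {S : ℤ → ℤ} {D : ℤ} (hD : 2 ≤ D) (hpos : ∀ x, 1 ≤ x → 1 ≤ S x)
    (hgr : ∀ x, 1 ≤ x → x ≤ D * S x) {k : ℕ} {x y : ℤ} :
    x ∈ tr S D k y ↔ 1 ≤ x ∧ S^[k] x = y := by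
  unfold tr
  rw [Finset.mem_filter, Finset.mem_Icc]
  constructor
  · rintro ⟨⟨h1, _⟩, h3⟩; exact ⟨h1, h3⟩
  · rintro ⟨h1, h3⟩
    exact ⟨⟨h1, h3 ▸ z17_gr hD hpos hgr k x h1⟩, h3⟩

/-- sum along an injection -/
theorem z17_inj {s t : Finset ℤ} (g : ℤ → ℤ) (hg : Set.InjOn g s) (hst : ∀ x ∈ s, g x ∈ t)
    (hpos : ∀ z ∈ t, 1 ≤ z) : ∑ x ∈ s, 1 / ((g x : ℤ) : ℝ) ≤ ∑ z ∈ t, 1 / (z : ℝ) := by
  classical
  rw [← Finset.sum_image (f := fun z : ℤ => 1 / (z : ℝ)) (g := g) hg]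
  apply Finset.sum_le_sum_of_subset_of_nonneg
  · intro z hz
    obtain ⟨x, hx, rfl⟩ := Finset.mem_image.1 hz
    exact hst x hx
  · intro z hz _
    have : (1 : ℝ) ≤ (z : ℝ) := by exact_mod_cast hpos z hz
    positivity

/-- general form: if the bad preimages (outside `W`) are controlled, the tree of `y` inside `W` has
positive logarithmic density -/
theorem posW {S : ℤ → ℤ} {D : ℤ} (hD : 2 ≤ D) (hpos : ∀ x, 1 ≤ x → 1 ≤ S x)
    (hgr : ∀ x, 1 ≤ x → x ≤ D * S x) {W : ℤ → Prop} {θ C₁ : ℝ} (hθ0 : 0 ≤ θ) (hθ : θ < 1)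
    (hC₁ : 0 ≤ C₁)
    (hstep : ∀ (k : ℕ) (y : ℤ), 1 ≤ y → open Classical in
      ∑ x ∈ (tr S D (k + 1) y).filter (fun x => ¬ W x), 1 / (x : ℝ)
        ≤ θ * (∑ x ∈ (tr S D k y).filter (fun x => ¬ W x), 1 / (x : ℝ))
          + C₁ * (∑ x ∈ (tr S D k y).filter (fun x => W x), 1 / (x : ℝ)))
    {y : ℤ} (hy : 1 ≤ y) (hW : W y) (hper : ∀ p : ℕ, 1 ≤ p → S^[p] y ≠ y) {c : ℝ} {K : ℕ}
    (hc : 0 < c) (hTB : TB S D c K y) :
    ∃ (c' : ℝ) (K' : ℕ), 0 < c' ∧ ∀ k : ℕ, K' ≤ k → ∃ F : Finset ℤ,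
      (∀ x ∈ F, 1 ≤ x ∧ x ≤ D ^ k * y ∧ W x ∧ ∃ j : ℕ, S^[j] x = y) ∧
      c' * k ≤ ∑ x ∈ F, 1 / (x : ℝ) := by
  classical
  have hy0 : (0 : ℝ) < y := by exact_mod_cast (by omega : (0 : ℤ) < y)
  have h1θ : 0 < 1 - θ := by linarith
  set a : ℕ → ℝ := fun j => ∑ x ∈ (tr S D j y).filter (fun x => W x), 1 / (x : ℝ) with ha
  set b : ℕ → ℝ := fun j => ∑ x ∈ (tr S D j y).filter (fun x => ¬ W x), 1 / (x : ℝ) with hb
  have htpos : ∀ (j : ℕ), ∀ x ∈ tr S D j y, (0 : ℝ) ≤ 1 / (x : ℝ) := by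
    intro j x hx
    have : 1 ≤ x := ((z17_mem hD hpos hgr).1 hx).1
    have : (1 : ℝ) ≤ (x : ℝ) := by exact_mod_cast this
    positivity
  have ha0 : ∀ j, 0 ≤ a j := fun j => Finset.sum_nonneg fun x hx => htpos j x (Finset.mem_filter.1 hx).1
  have hb0 : ∀ j, 0 ≤ b j := fun j => Finset.sum_nonneg fun x hx => htpos j x (Finset.mem_filter.1 hx).1
  have hab : ∀ j, a j + b j = HH S D j y := fun j => by
    simp only [ha, hb, HH]
    exact Finset.sum_filter_add_sum_filter_not _ _ _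
  have hb00 : b 0 = 0 := by
    simp only [hb]
    apply Finset.sum_eq_zero
    intro x hx
    obtain ⟨h1, h2⟩ := Finset.mem_filter.1 hx
    have h3 := ((z17_mem hD hpos hgr).1 h1).2
    rw [Function.iterate_zero, id_eq] at h3
    rw [h3] at h2
    exact absurd hW h2
  have hst : ∀ j, b (j + 1) ≤ θ * b j + C₁ * a j := by
    intro j
    have := hstep j y hy
    simp only [ha, hb]
    convert this
  have hB : ∀ k : ℕ, ∑ j ∈ range (k + 1), b j ≤ θ * ∑ j ∈ range (k + 1), b j + C₁ * ∑ j ∈ range (k + 1), a j := by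
    intro k
    have h1 : ∑ j ∈ range (k + 1), b j = ∑ j ∈ range k, b (j + 1) := by
      rw [Finset.sum_range_succ', hb00, add_zero]
    have h2 : ∑ j ∈ range k, b (j + 1) ≤ θ * ∑ j ∈ range k, b j + C₁ * ∑ j ∈ range k, a j := by
      rw [Finset.mul_sum, Finset.mul_sum, ← Finset.sum_add_distrib]
      exact Finset.sum_le_sum fun j _ => hst j
    have h3 : ∑ j ∈ range k, b j ≤ ∑ j ∈ range (k + 1), b j := by
      rw [Finset.sum_range_succ]; linarith [hb0 k]
    have h4 : ∑ j ∈ range k, a j ≤ ∑ j ∈ range (k + 1), a j := by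
      rw [Finset.sum_range_succ]; linarith [ha0 k]
    rw [h1] at h3 ⊢
    have h5 := mul_le_mul_of_nonneg_left h3 hθ0
    have h6 := mul_le_mul_of_nonneg_left h4 hC₁
    linarith
  have hsum : ∀ k : ℕ, K ≤ k → ((k : ℝ) + 1 - K) * (c / y) ≤
      ∑ j ∈ range (k + 1), a j + ∑ j ∈ range (k + 1), b j := by
    intro k hk
    rw [← Finset.sum_add_distrib]
    have h1 : ∑ j ∈ Finset.Ico K (k + 1), (a j + b j) ≤ ∑ j ∈ range (k + 1), (a j + b j) := by
      apply Finset.sum_le_sum_of_subset_of_nonneg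
      · intro j hj
        rw [Finset.mem_Ico] at hj
        exact Finset.mem_range.2 hj.2
      · intro j _ _
        exact add_nonneg (ha0 j) (hb0 j)
    refine le_trans ?_ h1
    have h2 : ∑ _j ∈ Finset.Ico K (k + 1), (c / (y : ℝ)) ≤ ∑ j ∈ Finset.Ico K (k + 1), (a j + b j) := by
      apply Finset.sum_le_sum
      intro j hj
      rw [hab j]
      exact hTB j (Finset.mem_Ico.1 hj).1
    refine le_trans (le_of_eq ?_) h2
    rw [Finset.sum_const, Nat.card_Ico, nsmul_eq_mul, Nat.cast_sub (by omega)]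
    push_cast
    ring
  set q : ℝ := 1 + C₁ / (1 - θ) with hq
  have hq0 : 0 < q := by positivity
  refine ⟨c / y / q / 2, 2 * K, by positivity, ?_⟩
  intro k hk
  refine ⟨(range (k + 1)).biUnion fun j => (tr S D j y).filter (fun x => W x), ?_, ?_⟩
  · intro x hx
    obtain ⟨j, hj, hx⟩ := Finset.mem_biUnion.1 hx
    obtain ⟨h1, h2⟩ := Finset.mem_filter.1 hx
    obtain ⟨h3, h4⟩ := (z17_mem hD hpos hgr).1 h1
    refine ⟨h3, ?_, h2, j, h4⟩
    have h5 := z17_gr hD hpos hgr j x h3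
    rw [h4] at h5
    refine h5.trans ?_
    have h6 : j ≤ k := by rw [Finset.mem_range] at hj; omega
    exact mul_le_mul_of_nonneg_right (pow_le_pow_right₀ (by omega) h6) (by omega)
  · rw [Finset.sum_biUnion]
    · have hA : ∑ j ∈ range (k + 1), b j ≤ C₁ / (1 - θ) * ∑ j ∈ range (k + 1), a j := by
        rw [div_mul_eq_mul_div, le_div_iff₀ h1θ]
        have := hB k
        linarith
      have h1 := hsum k (by omega)
      have h2 : ((k : ℝ) + 1 - K) * (c / y) ≤ q * ∑ j ∈ range (k + 1), a j := by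
        rw [hq]; linarith
      have h3 : (k : ℝ) / 2 ≤ (k : ℝ) + 1 - K := by
        have : (2 * K : ℝ) ≤ k := by exact_mod_cast hk
        linarith
      have h4 : (k : ℝ) / 2 * (c / y) ≤ q * ∑ j ∈ range (k + 1), a j :=
        (mul_le_mul_of_nonneg_right h3 (by positivity)).trans h2
      calc c / y / q / 2 * k = ((k : ℝ) / 2 * (c / y)) / q := by ring
        _ ≤ (q * ∑ j ∈ range (k + 1), a j) / q := div_le_div_of_nonneg_right h4 hq0.le
        _ = ∑ j ∈ range (k + 1), a j := by field_simp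
    · intro i _ j _ hij
      rw [Function.onFun, Finset.disjoint_left]
      intro x hxi hxj
      have h1 := ((z17_mem hD hpos hgr).1 (Finset.mem_filter.1 hxi).1).2
      have h2 := ((z17_mem hD hpos hgr).1 (Finset.mem_filter.1 hxj).1).2
      have key : ∀ i j : ℕ, i < j → S^[i] x = y → S^[j] x = y → False := by
        intro i j hlt e1 e2
        apply hper (j - i) (by omega)
        have : S^[j - i] (S^[i] x) = S^[j] x := by
          rw [← Function.iterate_add_apply]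
          congr 2
          omega
        rw [e1, e2] at this
        exact this
      rcases lt_or_gt_of_ne hij with h | h
      · exact key i j h h1 h2
      · exact key j i h h2 h1

theorem z17_Tpos {x : ℤ} (h : 1 ≤ x) : 1 ≤ T x := by
  unfold T; split_ifs <;> omega

theorem z17_Tgr {x : ℤ} (h : 1 ≤ x) : x ≤ 2 * T x := by
  unfold T; split_ifs <;> omega

theorem z17_Rpos {x : ℤ} (h : 1 ≤ x) : 1 ≤ R x := by
  unfold R; split_ifs <;> omega

theorem z17_Rgr {x : ℤ} (h : 1 ≤ x) : x ≤ 3 * R x := by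
  unfold R; split_ifs <;> omega

open scoped Classical in
theorem stepT (k : ℕ) (y : ℤ) (hy : 1 ≤ y) :
    ∑ x ∈ (tr T 2 (k + 1) y).filter (fun x => ¬ ¬ (3 : ℤ) ∣ x), 1 / (x : ℝ)
      ≤ (1 / 2) * (∑ x ∈ (tr T 2 k y).filter (fun x => ¬ ¬ (3 : ℤ) ∣ x), 1 / (x : ℝ))
        + (3 / 2) * (∑ x ∈ (tr T 2 k y).filter (fun x => ¬ (3 : ℤ) ∣ x), 1 / (x : ℝ)) := by
  have _ := hy
  have hm : ∀ (k : ℕ) (x : ℤ), x ∈ tr T 2 k y ↔ 1 ≤ x ∧ T^[k] x = y := fun k x =>
    z17_mem (le_refl 2) (fun x => z17_Tpos) (fun x => z17_Tgr)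
  set s := (tr T 2 (k + 1) y).filter (fun x => ¬ ¬ (3 : ℤ) ∣ x) with hs
  have hs' : ∀ x ∈ s, 1 ≤ x ∧ (3 : ℤ) ∣ x ∧ T x ∈ tr T 2 k y := by
    intro x hx
    rw [hs, Finset.mem_filter, hm, not_not] at hx
    refine ⟨hx.1.1, hx.2, (hm k (T x)).2 ⟨z17_Tpos hx.1.1, ?_⟩⟩
    rw [← Function.iterate_succ_apply]
    exact hx.1.2
  rw [← Finset.sum_filter_add_sum_filter_not s (fun x => x % 2 = 0)]
  apply add_le_add
  · have h1 : ∑ x ∈ s.filter (fun x => x % 2 = 0), 1 / (x : ℝ) =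
        (1 / 2) * ∑ x ∈ s.filter (fun x => x % 2 = 0), 1 / ((T x : ℤ) : ℝ) := by
      rw [Finset.mul_sum]
      refine Finset.sum_congr rfl fun x hx => ?_
      obtain ⟨hx1, hx2⟩ := Finset.mem_filter.1 hx
      have h2 : x = 2 * T x := by unfold T; rw [if_pos hx2]; omega
      have h3 : (x : ℝ) = 2 * ((T x : ℤ) : ℝ) := by exact_mod_cast h2
      rw [h3]
      rw [one_div_mul_one_div_rev, mul_comm]
    rw [h1]
    apply mul_le_mul_of_nonneg_left _ (by norm_num)
    apply z17_inj T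
    · intro u hu v hv huv
      rw [Finset.mem_coe, Finset.mem_filter] at hu hv
      unfold T at huv
      rw [if_pos hu.2, if_pos hv.2] at huv
      omega
    · intro x hx
      obtain ⟨hx1, hx2⟩ := Finset.mem_filter.1 hx
      obtain ⟨h3, h4, h5⟩ := hs' x hx1
      rw [Finset.mem_filter, not_not]
      refine ⟨h5, ?_⟩
      unfold T
      rw [if_pos hx2]
      omega
    · intro z hz
      exact ((hm k z).1 (Finset.mem_filter.1 hz).1).1
  · have h1 : ∑ x ∈ s.filter (fun x => ¬ x % 2 = 0), 1 / (x : ℝ) ≤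
        (3 / 2) * ∑ x ∈ s.filter (fun x => ¬ x % 2 = 0), 1 / ((T x : ℤ) : ℝ) := by
      rw [Finset.mul_sum]
      refine Finset.sum_le_sum fun x hx => ?_
      obtain ⟨hx1, hx2⟩ := Finset.mem_filter.1 hx
      have h0 := (hs' x hx1).1
      have h2 : 2 * T x ≤ 3 * x := by unfold T; rw [if_neg hx2]; omega
      have h3 : 2 * ((T x : ℤ) : ℝ) ≤ 3 * (x : ℝ) := by exact_mod_cast h2
      have h4 : (1 : ℝ) ≤ ((T x : ℤ) : ℝ) := by exact_mod_cast z17_Tpos h0
      have h5 : (1 : ℝ) ≤ (x : ℝ) := by exact_mod_cast h0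
      rw [mul_one_div, div_le_div_iff₀ (by linarith) (by linarith)]
      linarith
    refine h1.trans ?_
    apply mul_le_mul_of_nonneg_left _ (by norm_num)
    apply z17_inj T
    · intro u hu v hv huv
      rw [Finset.mem_coe, Finset.mem_filter] at hu hv
      unfold T at huv
      rw [if_neg hu.2, if_neg hv.2] at huv
      omega
    · intro x hx
      obtain ⟨hx1, hx2⟩ := Finset.mem_filter.1 hx
      obtain ⟨h3, h4, h5⟩ := hs' x hx1
      rw [Finset.mem_filter]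
      refine ⟨h5, ?_⟩
      unfold T
      rw [if_neg hx2]
      omega
    · intro z hz
      exact ((hm k z).1 (Finset.mem_filter.1 hz).1).1

open scoped Classical in
theorem stepR (k : ℕ) (y : ℤ) (hy : 1 ≤ y) :
    ∑ x ∈ (tr R 3 (k + 1) y).filter (fun x => ¬ x % 2 = 1), 1 / (x : ℝ)
      ≤ (1 / 3) * (∑ x ∈ (tr R 3 k y).filter (fun x => ¬ x % 2 = 1), 1 / (x : ℝ))
        + 3 * (∑ x ∈ (tr R 3 k y).filter (fun x => x % 2 = 1), 1 / (x : ℝ)) := by
  have _ := hy
  have hm : ∀ (k : ℕ) (x : ℤ), x ∈ tr R 3 k y ↔ 1 ≤ x ∧ R^[k] x = y := fun k x =>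
    z17_mem (by norm_num) (fun x => z17_Rpos) (fun x => z17_Rgr)
  set s := (tr R 3 (k + 1) y).filter (fun x => ¬ x % 2 = 1) with hs
  have hs' : ∀ x ∈ s, 1 ≤ x ∧ ¬ x % 2 = 1 ∧ R x ∈ tr R 3 k y := by
    intro x hx
    rw [hs, Finset.mem_filter, hm] at hx
    refine ⟨hx.1.1, hx.2, (hm k (R x)).2 ⟨z17_Rpos hx.1.1, ?_⟩⟩
    rw [← Function.iterate_succ_apply]
    exact hx.1.2
  rw [← Finset.sum_filter_add_sum_filter_not s (fun x => x % 3 = 0)]
  apply add_le_add
  · have h1 : ∑ x ∈ s.filter (fun x => x % 3 = 0), 1 / (x : ℝ) =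
        (1 / 3) * ∑ x ∈ s.filter (fun x => x % 3 = 0), 1 / ((R x : ℤ) : ℝ) := by
      rw [Finset.mul_sum]
      refine Finset.sum_congr rfl fun x hx => ?_
      obtain ⟨hx1, hx2⟩ := Finset.mem_filter.1 hx
      have h2 : x = 3 * R x := by unfold R; rw [if_pos hx2]; omega
      have h3 : (x : ℝ) = 3 * ((R x : ℤ) : ℝ) := by exact_mod_cast h2
      rw [h3]
      rw [one_div_mul_one_div_rev, mul_comm]
    rw [h1]
    apply mul_le_mul_of_nonneg_left _ (by norm_num)
    apply z17_inj R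
    · intro u hu v hv huv
      rw [Finset.mem_coe, Finset.mem_filter] at hu hv
      unfold R at huv
      rw [if_pos hu.2, if_pos hv.2] at huv
      omega
    · intro x hx
      obtain ⟨hx1, hx2⟩ := Finset.mem_filter.1 hx
      obtain ⟨h3, h4, h5⟩ := hs' x hx1
      rw [Finset.mem_filter]
      refine ⟨h5, ?_⟩
      unfold R
      rw [if_pos hx2]
      omega
    · intro z hz
      exact ((hm k z).1 (Finset.mem_filter.1 hz).1).1
  · set t := s.filter (fun x => ¬ x % 3 = 0) with ht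
    have hpart : ∀ r : ℤ, (r = 1 ∨ r = 2) → ∑ x ∈ t.filter (fun x => x % 3 = r), 1 / (x : ℝ) ≤
        (3 / 2) * ∑ x ∈ (tr R 3 k y).filter (fun x => x % 2 = 1), 1 / (x : ℝ) := by
      intro r hr
      have h1 : ∑ x ∈ t.filter (fun x => x % 3 = r), 1 / (x : ℝ) ≤
          (3 / 2) * ∑ x ∈ t.filter (fun x => x % 3 = r), 1 / ((R x : ℤ) : ℝ) := by
        rw [Finset.mul_sum]
        refine Finset.sum_le_sum fun x hx => ?_
        obtain ⟨hx0, hx3⟩ := Finset.mem_filter.1 hx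
        obtain ⟨hx1, hx2⟩ := Finset.mem_filter.1 hx0
        obtain ⟨h0, h0', _⟩ := hs' x hx1
        have h2 : 2 * R x ≤ 3 * x := by
          unfold R
          split_ifs <;> omega
        have h3 : 2 * ((R x : ℤ) : ℝ) ≤ 3 * (x : ℝ) := by exact_mod_cast h2
        have h4 : (1 : ℝ) ≤ ((R x : ℤ) : ℝ) := by exact_mod_cast z17_Rpos h0
        have h5 : (1 : ℝ) ≤ (x : ℝ) := by exact_mod_cast h0
        rw [mul_one_div, div_le_div_iff₀ (by linarith) (by linarith)]
        linarith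
      refine h1.trans ?_
      apply mul_le_mul_of_nonneg_left _ (by norm_num)
      apply z17_inj R
      · intro u hu v hv huv
        rw [Finset.mem_coe, Finset.mem_filter] at hu hv
        have hu2 := hu.2
        have hv2 := hv.2
        unfold R at huv
        split_ifs at huv <;> omega
      · intro x hx
        obtain ⟨hx0, hx3⟩ := Finset.mem_filter.1 hx
        obtain ⟨hx1, hx2⟩ := Finset.mem_filter.1 hx0
        obtain ⟨h3, h4, h5⟩ := hs' x hx1
        rw [Finset.mem_filter]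
        refine ⟨h5, ?_⟩
        unfold R
        split_ifs <;> omega
      · intro z hz
        exact ((hm k z).1 (Finset.mem_filter.1 hz).1).1
    rw [← Finset.sum_filter_add_sum_filter_not t (fun x => x % 3 = 1)]
    have e : t.filter (fun x => ¬ x % 3 = 1) = t.filter (fun x => x % 3 = 2) := by
      apply Finset.filter_congr
      intro x hx
      have := (Finset.mem_filter.1 hx).2
      omega
    rw [e]
    have h1 := hpart 1 (Or.inl rfl)
    have h2 := hpart 2 (Or.inr rfl)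
    linarith

end Pool.Agent.H319IZ
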