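import Pool.Agent.H319IZ.Defs

/-!
# Z20: the frozen statements
-/

set_option autoImplicit false

namespace Pool.Agent.H319IZ

/-- the reachable points are closed -/
theorem Z20_cl : Cl (fun x : ℤ =>
    Relation.ReflTransGen (fun a b : ℕ => b = 3 * a ∨ a = 2 * b + 1) 1 (2 * x - 1).toNat) where
  one := by
    have : (2 * (1 : ℤ) - 1).toNat = 1 := by norm_num
    rw [this]
  tri := by
    intro x hx h
    refine h.tail (Or.inl ?_)
    omega
  half := by
    intro x hx h
    refine h.tail (Or.inr ?_)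
    omega

theorem reach_of
    (main : ∀ {P : ℤ → Prop} (_ : Cl P) {x : ℤ} (_ : 1 ≤ x) (_ : ¬ (3 : ℤ) ∣ x), P x)
    (m : ℕ) (hm : 0 < m) (h : m % 3 = 0 ∨ m % 3 = 1) :
    Relation.ReflTransGen (fun a b : ℕ => b = 3 * a ∨ a = 2 * b + 1) 1 m := by
  rcases Nat.even_or_odd m with he | ho
  · have h1 := main Z20_cl (x := (m : ℤ) + 1) (by omega) (by omega)
    refine h1.tail (Or.inr ?_)
    omega
  · obtain ⟨k, rfl⟩ := ho
    have h1 := main Z20_cl (x := (k : ℤ) + 1) (by omega) (by omega)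
    have h2 : (2 * ((k : ℤ) + 1) - 1).toNat = 2 * k + 1 := by omega
    simp only [h2] at h1
    exact h1

theorem reduce_of
    (main : ∀ {P : ℤ → Prop} (_ : Cl P) {x : ℤ} (_ : 1 ≤ x) (_ : ¬ (3 : ℤ) ∣ x), P x)
    (n : ℕ) (hn : 0 < n) (h : n % 3 = 0 ∨ n % 3 = 1) :
    Relation.ReflTransGen (fun a b : ℕ => (3 ∣ a ∧ b = a / 3) ∨ b = 2 * a + 1) n 1 := by
  have h1 := reach_of main n hn h
  clear hn h
  induction h1 with
  | refl => exact Relation.ReflTransGen.refl
  | tail _ hbc ih =>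
    refine Relation.ReflTransGen.head ?_ ih
    rcases hbc with hbc | hbc
    · left
      omega
    · right
      exact hbc

end Pool.Agent.H319IZ
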