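import Pool.Agent.H319IZ.Defs
import Pool.Agent.H319R3.PO.P10

/-! Z3: uniform tree sums in one residue class (helper546). -/

set_option autoImplicit false

namespace Pool.Agent.H319IZ
open Pool.Agent.H319R3.GC Pool.Agent.H319R3.PO Finset Filter Topology

/-- membership in `tr`, one direction -/
theorem z3_mem_tr {S : ℤ → ℤ} {D : ℤ} (hD : 0 < D) (hpos : ∀ x, 1 ≤ x → 1 ≤ S x)
    (hgr : ∀ x, 1 ≤ x → x ≤ D * S x) {k : ℕ} {x y : ℤ} (hx : 1 ≤ x) (hk : S^[k] x = y) :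
    x ∈ tr S D k y := by
  have key : ∀ k : ℕ, 1 ≤ S^[k] x ∧ x ≤ D ^ k * S^[k] x := by
    intro k
    induction k with
    | zero => exact ⟨hx, by simp⟩
    | succ k ih =>
      rw [Function.iterate_succ_apply']
      refine ⟨hpos _ ih.1, ih.2.trans ?_⟩
      rw [pow_succ, mul_assoc]
      exact mul_le_mul_of_nonneg_left (hgr _ ih.1) (by positivity)
  unfold tr
  rw [mem_filter, mem_Icc]
  refine ⟨⟨hx, ?_⟩, hk⟩
  have := (key k).2
  rwa [hk] at this

theorem z3_neg {S : ℤ → ℤ} (hneg : ∀ x : ℤ, x ≤ 0 → S x ≤ 0) {x : ℤ} (hx : x ≤ 0) (k : ℕ) :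
    S^[k] x ≤ 0 := by
  induction k with
  | zero => simpa using hx
  | succ k ih =>
    rw [Function.iterate_succ_apply']
    exact hneg _ ih

theorem z3_Mw_pos {d : ℕ} {m : ℕ → ℤ} (hm : ∀ i < d, 0 < m i) {w : List ℕ}
    (hw : ∀ i ∈ w, i < d) : 0 < Mw m w := by
  induction w with
  | nil => simp [Mw]
  | cons i w ih =>
    rw [Mw_cons]
    exact mul_pos (hm i (hw i (by simp))) (ih fun j hj => hw j (by simp [hj]))

theorem tree_good {d : ℕ} {m r : ℕ → ℤ} (h : Adm d m r) (hm : ∀ i < d, 0 < m i)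
    (hpos : ∀ x : ℤ, 1 ≤ x → 1 ≤ Tm d m r x) (hneg : ∀ x : ℤ, x ≤ 0 → Tm d m r x ≤ 0)
    (hgr : ∀ x : ℤ, 1 ≤ x → x ≤ d * Tm d m r x) :
    ∃ (N : ℕ) (y₀ : ℤ) (c : ℝ), 0 < c ∧ ∀ y : ℤ, 1 ≤ y → (PP d m : ℤ) ^ N ∣ y - y₀ →
      TB (Tm d m r) d c N y := by
  classical
  obtain ⟨η, c, C0, N0, N, y₀, hnb, hN0, hN1, hU⟩ := good_class h
  have hC0 := hnb.one_le
  refine ⟨N, y₀, 1 / (2 * (1 + C0)), by positivity, ?_⟩
  intro y hy hyy k hk
  have h1 := hU y hyy k hk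
  have hd0 : 0 < d := by have := h.two_le; omega
  have hdZ : (0 : ℤ) < (d : ℤ) := by exact_mod_cast hd0
  have hdR : (0 : ℝ) < (d : ℝ) := by exact_mod_cast hd0
  have hyR : (1 : ℝ) ≤ (y : ℝ) := by exact_mod_cast hy
  have hB : (0 : ℝ) < (1 + C0) * y := by positivity
  unfold U at h1
  set L := (LW d k).filter (fun w => Nice d η N0 w ∧ Vl d m r y w) with hL
  have hkey : ∀ w ∈ L, pre d m r y w ∈ tr (Tm d m r) d k y ∧
      wt d m w / ((1 + C0) * y) ≤ 1 / (pre d m r y w : ℝ) := by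
    intro w hw
    rw [hL, mem_filter] at hw
    obtain ⟨hwL, hnice, hval⟩ := hw
    have hwd := (mem_LW.1 hwL).2
    have hlen := (mem_LW.1 hwL).1
    have hit := (pre_iter h hwL hval).1
    have hx1 : 1 ≤ pre d m r y w := by
      by_contra hcon
      have h2 : pre d m r y w ≤ 0 := by omega
      have h3 := z3_neg hneg h2 k
      rw [hit] at h3
      omega
    refine ⟨z3_mem_tr hdZ hpos hgr hx1 hit, ?_⟩
    have hM := z3_Mw_pos hm hwd
    have hmul := pre_mul hval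
    have hoff := hnb.off w hwd hnice
    rw [hlen] at hmul hoff
    have hMR : (0 : ℝ) < (Mw m w : ℝ) := by exact_mod_cast hM
    have hxR : (0 : ℝ) < (pre d m r y w : ℝ) := by exact_mod_cast (by omega : 0 < pre d m r y w)
    have hmulR : (Mw m w : ℝ) * (pre d m r y w : ℝ) = (d : ℝ) ^ k * y + (Ww d m r w : ℝ) := by
      exact_mod_cast hmul
    have hdk : (0 : ℝ) < (d : ℝ) ^ k := by positivity
    unfold wt
    rw [hlen, abs_of_pos hMR, div_div, div_le_div_iff₀ (by positivity) hxR, hmulR, one_mul]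
    have h4 : (Ww d m r w : ℝ) ≤ C0 * (d : ℝ) ^ k := (le_abs_self _).trans hoff
    have h5 : C0 * (d : ℝ) ^ k ≤ C0 * (d : ℝ) ^ k * y := by
      have : (0 : ℝ) ≤ C0 * (d : ℝ) ^ k := by positivity
      nlinarith
    nlinarith
  have hinj : ∀ w ∈ L, ∀ w' ∈ L, pre d m r y w = pre d m r y w' → w = w' := by
    intro w hw w' hw' he
    rw [hL, mem_filter] at hw hw'
    exact pre_inj h hw.1 hw'.1 hw.2.2 hw'.2.2 he
  unfold HH
  calc 1 / (2 * (1 + C0)) / (y : ℝ) = (1 / 2) / ((1 + C0) * y) := by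
        field_simp
    _ ≤ (∑ w ∈ L, wt d m w) / ((1 + C0) * y) := div_le_div_of_nonneg_right h1 hB.le
    _ = ∑ w ∈ L, wt d m w / ((1 + C0) * y) := Finset.sum_div _ _ _
    _ ≤ ∑ w ∈ L, 1 / (pre d m r y w : ℝ) := Finset.sum_le_sum fun w hw => (hkey w hw).2
    _ = ∑ x ∈ L.image (pre d m r y), 1 / (x : ℝ) :=
        (Finset.sum_image (f := fun x : ℤ => 1 / (x : ℝ)) (g := pre d m r y) hinj).symm
    _ ≤ ∑ x ∈ tr (Tm d m r) d k y, 1 / (x : ℝ) := by
        refine Finset.sum_le_sum_of_subset_of_nonneg ?_ ?_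
        · intro x hx
          obtain ⟨w, hw, rfl⟩ := mem_image.1 hx
          exact (hkey w hw).1
        · intro x hx _
          have h6 : 1 ≤ x := by
            unfold tr at hx
            exact (mem_Icc.1 (mem_filter.1 hx).1).1
          have h7 : (0 : ℝ) < (x : ℝ) := by exact_mod_cast (by omega : 0 < x)
          positivity

end Pool.Agent.H319IZ
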