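import Pool.Agent.H319IZ.Defs

/-! Z4 (helper311): powers of 2 mod `3^N`. -/

set_option autoImplicit false

namespace Pool.Agent.H319IZ
open Pool.Agent.H319R3.GC Pool.Agent.H319R3.PO Finset Filter Topology

theorem Z4_gen (N : ℕ) : ∃ (g : ℕ) (e : ℤ), ¬ (3 : ℤ) ∣ e ∧ (2 : ℤ) ^ g = 1 + 3 ^ (N + 1) * e := by
  induction N with
  | zero => exact ⟨2, 1, by norm_num, by norm_num⟩
  | succ N ih =>
    obtain ⟨g, e, he, hg⟩ := ih
    refine ⟨g * 3, e + 3 ^ (N + 1) * e ^ 2 + 3 ^ (2 * N + 1) * e ^ 3, ?_, ?_⟩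
    · intro h
      apply he
      have h1 : (3 : ℤ) ∣ 3 ^ (N + 1) * e ^ 2 := Dvd.dvd.mul_right (dvd_pow_self 3 (by omega)) _
      have h2 : (3 : ℤ) ∣ 3 ^ (2 * N + 1) * e ^ 3 := Dvd.dvd.mul_right (dvd_pow_self 3 (by omega)) _
      have h3 : e = (e + 3 ^ (N + 1) * e ^ 2 + 3 ^ (2 * N + 1) * e ^ 3) - 3 ^ (N + 1) * e ^ 2 -
        3 ^ (2 * N + 1) * e ^ 3 := by ring
      rw [h3]
      exact dvd_sub (dvd_sub h h1) h2
    · rw [pow_mul, hg]
      ring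

theorem pow_two (N : ℕ) (u v : ℤ) (hu : ¬ (3 : ℤ) ∣ u) (hv : ¬ (3 : ℤ) ∣ v) :
    ∃ j : ℕ, (3 : ℤ) ^ N ∣ 2 ^ j * u - v := by
  have step1 : ∃ j : ℕ, (3 : ℤ) ^ 1 ∣ 2 ^ j * u - v := by
    have h1 : u % 3 = 1 ∨ u % 3 = 2 := by omega
    have h2 : v % 3 = 1 ∨ v % 3 = 2 := by omega
    by_cases h : u % 3 = v % 3
    · exact ⟨0, by rw [pow_one, pow_zero, one_mul]; omega⟩
    · exact ⟨1, by rw [pow_one, pow_one]; omega⟩
  rcases N with _ | N
  · exact ⟨0, by simp⟩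
  · induction N with
    | zero => exact step1
    | succ N ih =>
      obtain ⟨j, w, hw⟩ := ih
      obtain ⟨g, e, he, hg⟩ := Z4_gen N
      obtain ⟨d, hd⟩ : ∃ d : ℤ, d = e * (2 ^ j * u) := ⟨_, rfl⟩
      have hd3 : ¬ (3 : ℤ) ∣ d := by
        rw [hd]
        intro h
        rcases Int.prime_three.dvd_or_dvd h with h | h
        · exact he h
        · rcases Int.prime_three.dvd_or_dvd h with h | h
          · have h2 := Int.prime_three.dvd_of_dvd_pow h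
            norm_num at h2
          · exact hu h
      have key : (3 : ℤ) ∣ w ∨ (3 : ℤ) ∣ w + d ∨ (3 : ℤ) ∣ w + 2 * d := by
        clear hw hd hg
        have h1 : d % 3 = 1 ∨ d % 3 = 2 := by omega
        have h2 : w % 3 = 0 ∨ w % 3 = 1 ∨ w % 3 = 2 := by omega
        rcases h1 with h1 | h1 <;> rcases h2 with h2 | h2 | h2
        · left; omega
        · right; right; omega
        · right; left; omega
        · left; omega
        · right; left; omega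
        · right; right; omega
      rcases key with ⟨q, hq⟩ | ⟨q, hq⟩ | ⟨q, hq⟩
      · refine ⟨j, q, ?_⟩
        rw [hw, hq]
        ring
      · refine ⟨j + g, q, ?_⟩
        calc (2 : ℤ) ^ (j + g) * u - v = (2 ^ j * u - v) + (2 ^ g - 1) * (2 ^ j * u) := by
              rw [pow_add]; ring
          _ = 3 ^ (N + 1) * (w + d) := by rw [hw, hg, hd]; ring
          _ = 3 ^ (N + 1 + 1) * q := by rw [hq]; ring
      · refine ⟨j + g * 2, q + 3 ^ N * (e * d), ?_⟩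
        calc (2 : ℤ) ^ (j + g * 2) * u - v
            = (2 ^ j * u - v) + (2 ^ g - 1) * (2 ^ g + 1) * (2 ^ j * u) := by
              rw [pow_add, pow_mul]; ring
          _ = 3 ^ (N + 1) * (w + 2 * d) + 3 ^ (N + 1) * (3 ^ (N + 1) * (e * d)) := by
              rw [hw, hg, hd]; ring
          _ = 3 ^ (N + 1 + 1) * (q + 3 ^ N * (e * d)) := by rw [hq]; ring

theorem hitT (N : ℕ) (v : ℤ) (hv : ¬ (3 : ℤ) ∣ v) :
    ∃ J : ℕ, ∀ y : ℤ, ¬ (3 : ℤ) ∣ y → ∃ j ≤ J, (3 : ℤ) ^ N ∣ 2 ^ j * y - v := by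
  classical
  have h1 : ∀ u : ℤ, ∃ j : ℕ, ¬ (3 : ℤ) ∣ u → (3 : ℤ) ^ N ∣ 2 ^ j * u - v := by
    intro u
    by_cases hu : (3 : ℤ) ∣ u
    · exact ⟨0, fun h => absurd hu h⟩
    · obtain ⟨j, hj⟩ := pow_two N u v hu hv
      exact ⟨j, fun _ => hj⟩
  choose j hj using h1
  refine ⟨(Finset.range (3 ^ N)).sup (fun k : ℕ => j (k : ℤ)), fun y hy => ?_⟩
  rcases Nat.eq_zero_or_pos N with hN | hN
  · exact ⟨0, Nat.zero_le _, by rw [hN]; simp⟩
  · have hpos : (0 : ℤ) < 3 ^ N := by positivity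
    have hmod : 0 ≤ y % 3 ^ N := Int.emod_nonneg y hpos.ne'
    have hmod2 : y % 3 ^ N < 3 ^ N := Int.emod_lt_of_pos y hpos
    obtain ⟨k, hk⟩ : ∃ k : ℕ, (k : ℤ) = y % 3 ^ N := ⟨(y % 3 ^ N).toNat, Int.toNat_of_nonneg hmod⟩
    have hkN : k < 3 ^ N := by
      have : (k : ℤ) < 3 ^ N := by rw [hk]; exact hmod2
      exact_mod_cast this
    have hdiv : (3 : ℤ) ^ N ∣ y - k := by
      rw [hk]
      exact Int.dvd_self_sub_emod
    have h3N : (3 : ℤ) ∣ 3 ^ N := dvd_pow_self 3 (by omega)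
    have hk3 : ¬ (3 : ℤ) ∣ (k : ℤ) := by
      intro h
      apply hy
      have h2 := h3N.trans hdiv
      have h4 : y = (y - k) + k := by ring
      rw [h4]
      exact dvd_add h2 h
    refine ⟨j (k : ℤ), Finset.le_sup (f := fun k : ℕ => j (k : ℤ)) (Finset.mem_range.mpr hkN), ?_⟩
    have h5 := hj (k : ℤ) hk3
    have h6 : (2 : ℤ) ^ j (k : ℤ) * y - v = (2 ^ j (k : ℤ) * k - v) + 2 ^ j (k : ℤ) * (y - k) := by
      ring
    rw [h6]
    exact dvd_add h5 (Dvd.dvd.mul_left hdiv _)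

end Pool.Agent.H319IZ
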