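import Pool.Agent.H319IZ.Defs

set_option autoImplicit false

namespace Pool.Agent.H319IZ
open Pool.Agent.H319R3.GC Pool.Agent.H319R3.PO Finset Filter Topology

namespace Z5x

lemma R_tri (x : ℤ) : R (3 * x) = x := by
  unfold R
  split_ifs <;> omega

lemma R_tri_iter (j : ℕ) (x : ℤ) : R^[j] (3 ^ j * x) = x := by
  induction j with
  | zero => simp
  | succ j ih =>
    rw [Function.iterate_succ_apply]
    have : (3 : ℤ) ^ (j + 1) * x = 3 * (3 ^ j * x) := by ring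
    rw [this, R_tri, ih]

lemma three_pow (n : ℕ) : ∃ e : ℤ, e % 2 = 1 ∧ (3 : ℤ) ^ (2 ^ (n + 1)) = 1 + 2 ^ (n + 3) * e := by
  induction n with
  | zero => exact ⟨1, by norm_num, by norm_num⟩
  | succ n ih =>
    obtain ⟨e, he, h⟩ := ih
    refine ⟨e + 2 * (2 ^ (n + 1) * e ^ 2), by omega, ?_⟩
    have : (3 : ℤ) ^ (2 ^ (n + 1 + 1)) = (3 ^ (2 ^ (n + 1))) ^ 2 := by
      rw [← pow_mul]
      congr 1
    rw [this, h]
    ring

lemma pow_odd (j : ℕ) (u : ℤ) (hu : u % 2 = 1) : (3 ^ j * u) % 2 = 1 := by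
  induction j with
  | zero => simpa using hu
  | succ j ih =>
    have : (3 : ℤ) ^ (j + 1) * u = 3 * (3 ^ j * u) := by ring
    omega

theorem pow_three' (M : ℕ) (u v : ℤ) (h : (u % 8 = 1 ∨ u % 8 = 3) ∧ (v % 8 = 1 ∨ v % 8 = 3) ∨
    (u % 8 = 5 ∨ u % 8 = 7) ∧ (v % 8 = 5 ∨ v % 8 = 7)) :
    ∃ j ≤ 2 ^ M, (2 : ℤ) ^ M ∣ 3 ^ j * u - v := by
  have hbase : ∃ j ≤ 1, (8 : ℤ) ∣ 3 ^ j * u - v := by
    by_cases huv : u % 8 = v % 8
    · exact ⟨0, by norm_num, by omega⟩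
    · exact ⟨1, by norm_num, by omega⟩
  have h1 : ∀ M : ℕ, 1 ≤ 2 ^ M := fun M => Nat.one_le_two_pow
  rcases Nat.lt_or_ge M 3 with hM | hM
  · obtain ⟨j, hj, hd⟩ := hbase
    refine ⟨j, le_trans hj (h1 M), dvd_trans ?_ hd⟩
    have : (8 : ℤ) = 2 ^ 3 := by norm_num
    rw [this]
    exact pow_dvd_pow 2 hM.le
  · induction M, hM using Nat.le_induction with
    | base =>
      obtain ⟨j, hj, hd⟩ := hbase
      exact ⟨j, le_trans hj (h1 3), by norm_num; exact hd⟩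
    | succ M hM ih =>
      obtain ⟨j, hj, k, hk⟩ := ih
      by_cases hke : k % 2 = 0
      · refine ⟨j, le_trans hj (Nat.pow_le_pow_right (by norm_num) (by omega)), k / 2, ?_⟩
        rw [hk]
        have : k = 2 * (k / 2) := by omega
        rw [pow_succ]
        conv_lhs => rw [this]
        ring
      · obtain ⟨e, he, hp⟩ := three_pow (M - 3)
        have e1 : M - 3 + 1 = M - 2 := by omega
        have e2 : M - 3 + 3 = M := by omega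
        rw [e1, e2] at hp
        have hodd := pow_odd j u (by omega)
        have hodd2 : (e * (3 ^ j * u)) % 2 = 1 := by
          rw [Int.mul_emod, he, hodd]; norm_num
        refine ⟨j + 2 ^ (M - 2), ?_, (k + e * (3 ^ j * u)) / 2, ?_⟩
        · have h2 : 2 ^ (M - 2) ≤ 2 ^ M := Nat.pow_le_pow_right (by norm_num) (by omega)
          have h3 : 2 ^ (M + 1) = 2 ^ M + 2 ^ M := by ring
          omega
        · have h4 : k + e * (3 ^ j * u) = 2 * ((k + e * (3 ^ j * u)) / 2) := by omega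
          have h5 : (3 : ℤ) ^ (j + 2 ^ (M - 2)) * u - v = 2 ^ M * (k + e * (3 ^ j * u)) := by
            rw [pow_add, hp]
            linear_combination hk
          rw [h5, pow_succ]
          conv_lhs => rw [h4]
          ring

end Z5x

open Z5x

theorem pow_three (M : ℕ) (u v : ℤ) (h : (u % 8 = 1 ∨ u % 8 = 3) ∧ (v % 8 = 1 ∨ v % 8 = 3) ∨
    (u % 8 = 5 ∨ u % 8 = 7) ∧ (v % 8 = 5 ∨ v % 8 = 7)) :
    ∃ j : ℕ, (2 : ℤ) ^ M ∣ 3 ^ j * u - v := by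
  obtain ⟨j, -, hj⟩ := pow_three' M u v h
  exact ⟨j, hj⟩

theorem hitR (M : ℕ) (v : ℤ) (hv : v % 2 = 1) :
    ∃ J : ℕ, ∀ y : ℤ, 1 ≤ y → y % 2 = 1 → ∃ j ≤ J, ∃ z : ℤ, 1 ≤ z ∧ z % 2 = 1 ∧ R^[j] z = y ∧
      (2 : ℤ) ^ M ∣ z - v := by
  have h1 : ∀ M : ℕ, 1 ≤ 2 ^ M := fun M => Nat.one_le_two_pow
  have hpos : ∀ (b : ℕ) (w : ℤ), 1 ≤ w → 1 ≤ 3 ^ b * w := by
    intro b w hw
    have : (1 : ℤ) ≤ 3 ^ b := one_le_pow₀ (by norm_num)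
    nlinarith
  -- the step through `w = (3 t - 1) / 2`
  have step : ∀ y : ℤ, 1 ≤ y → ∀ (t₀ : ℤ), (t₀ = 9 ∨ t₀ = 13) →
      ((y % 8 = 1 ∨ y % 8 = 3) ∧ (t₀ % 8 = 1 ∨ t₀ % 8 = 3) ∨
      (y % 8 = 5 ∨ y % 8 = 7) ∧ (t₀ % 8 = 5 ∨ t₀ % 8 = 7)) →
      (v % 8 = 5 ∨ v % 8 = 7) ∧ t₀ = 9 ∨ (v % 8 = 1 ∨ v % 8 = 3) ∧ t₀ = 13 →
      ∃ j ≤ 2 ^ M + 1 + 2 ^ 4, ∃ z : ℤ, 1 ≤ z ∧ z % 2 = 1 ∧ R^[j] z = y ∧ (2 : ℤ) ^ M ∣ z - v := by
    intro y hy t₀ ht₀ hyt hvt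
    obtain ⟨a, ha, hd⟩ := pow_three' 4 y t₀ hyt
    set t : ℤ := 3 ^ a * y with ht
    have ht1 : 1 ≤ t := hpos a y hy
    obtain ⟨q, hq⟩ := hd
    norm_num at hq
    obtain ⟨w, hw⟩ : ∃ w : ℤ, w = (3 * t - 1) / 2 := ⟨_, rfl⟩
    have hw1 : 1 ≤ w := by omega
    have hwR : R w = t := by
      unfold R
      rcases hvt with ⟨_, h9⟩ | ⟨_, h13⟩ <;> split_ifs <;> omega
    have hwodd : w % 2 = 1 := by
      rcases hvt with ⟨_, h9⟩ | ⟨_, h13⟩ <;> omega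
    have hwv : (w % 8 = 1 ∨ w % 8 = 3) ∧ (v % 8 = 1 ∨ v % 8 = 3) ∨
        (w % 8 = 5 ∨ w % 8 = 7) ∧ (v % 8 = 5 ∨ v % 8 = 7) := by
      rcases hvt with ⟨_, h9⟩ | ⟨_, h13⟩ <;> omega
    obtain ⟨b, hb, hdb⟩ := pow_three' M w v hwv
    refine ⟨a + 1 + b, by omega, 3 ^ b * w, hpos b w hw1, pow_odd b w hwodd, ?_, hdb⟩
    rw [Function.iterate_add_apply, R_tri_iter, Function.iterate_add_apply, Function.iterate_one,
      hwR, ht, R_tri_iter]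
  refine ⟨2 ^ M + 1 + 2 ^ 4, ?_⟩
  intro y hy hyo
  by_cases hA : (y % 8 = 1 ∨ y % 8 = 3) ∧ (v % 8 = 1 ∨ v % 8 = 3) ∨
      (y % 8 = 5 ∨ y % 8 = 7) ∧ (v % 8 = 5 ∨ v % 8 = 7)
  · obtain ⟨j, hj, hd⟩ := pow_three' M y v hA
    exact ⟨j, by omega, 3 ^ j * y, hpos j y hy, pow_odd j y hyo, R_tri_iter j y, hd⟩
  · by_cases hB : y % 8 = 1 ∨ y % 8 = 3
    · exact step y hy 9 (Or.inl rfl) (by omega) (by omega)
    · exact step y hy 13 (Or.inr rfl) (by omega) (by omega)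

end Pool.Agent.H319IZ
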