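import Pool.Agent.H319IZ.Defs

/-! Z7: exits. -/

set_option autoImplicit false

namespace Pool.Agent.H319IZ
open Pool.Agent.H319R3.GC Pool.Agent.H319R3.PO Finset Filter Topology

namespace Z7

lemma sum_Icc_int (n : ℕ) : ∑ x ∈ Icc (1 : ℤ) n, 1 / (x : ℝ) = (harmonic n : ℝ) := by
  induction n with
  | zero => simp
  | succ n ih =>
    have h : Icc (1 : ℤ) ((n + 1 : ℕ) : ℤ) = insert ((n : ℤ) + 1) (Icc (1 : ℤ) n) := by
      ext x
      simp only [Finset.mem_insert, Finset.mem_Icc]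
      push_cast
      constructor
      · intro h
        rcases eq_or_lt_of_le h.2 with h' | h'
        · exact Or.inl h'
        · exact Or.inr ⟨h.1, by omega⟩
      · rintro (h | h)
        · subst h
          constructor
          · omega
          · exact le_refl _
        · exact ⟨h.1, by omega⟩
    have hn : ((n : ℤ) + 1) ∉ Icc (1 : ℤ) n := by
      intro h
      rw [Finset.mem_Icc] at h
      omega
    rw [h, Finset.sum_insert hn, ih, harmonic_succ]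
    push_cast
    rw [one_div]
    ring

lemma sum_Icc_le {N : ℤ} (hN : 1 ≤ N) : ∑ x ∈ Icc (1 : ℤ) N, 1 / (x : ℝ) ≤ 1 + Real.log N := by
  obtain ⟨n, rfl⟩ := Int.eq_ofNat_of_zero_le (by omega : (0 : ℤ) ≤ N)
  have h1 := sum_Icc_int n
  have h2 := harmonic_le_one_add_log n
  have e : ((Int.ofNat n : ℤ) : ℝ) = (n : ℝ) := by simp
  rw [show (Int.ofNat n : ℤ) = (n : ℤ) from rfl] at *
  rw [h1, Int.cast_natCast]
  exact h2

lemma iter_pos {S : ℤ → ℤ} (hpos : ∀ x, 1 ≤ x → 1 ≤ S x) (k : ℕ) : ∀ x, 1 ≤ x → 1 ≤ S^[k] x := by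
  induction k with
  | zero => intro x hx; exact hx
  | succ k ih => intro x hx; rw [Function.iterate_succ_apply]; exact ih _ (hpos x hx)

lemma iter_Q {S : ℤ → ℤ} (hpos : ∀ x, 1 ≤ x → 1 ≤ S x) {Q : ℤ → Prop}
    (hQ : ∀ x, 1 ≤ x → Q x → Q (S x)) (k : ℕ) : ∀ x, 1 ≤ x → Q x → Q (S^[k] x) := by
  induction k with
  | zero => intro x _ hq; exact hq
  | succ k ih =>
    intro x hx hq
    rw [Function.iterate_succ_apply]
    exact ih _ (hpos x hx) (hQ x hx hq)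

lemma no_lt {S : ℤ → ℤ} (hpos : ∀ x, 1 ≤ x → 1 ≤ S x) {Q : ℤ → Prop}
    (hQ : ∀ x, 1 ≤ x → Q x → Q (S x)) {x y y' : ℤ} {k k' : ℕ} (hy1 : 1 ≤ y) (hy : Q (S y))
    (hy' : ¬ Q y') (h : S^[k] x = y) (h' : S^[k'] x = y') (hk : k < k') : False := by
  obtain ⟨j, rfl⟩ : ∃ j, k' = j + 1 + k := ⟨k' - k - 1, by omega⟩
  rw [Function.iterate_add_apply, h, Function.iterate_succ_apply] at h'
  apply hy'
  rw [← h']
  exact iter_Q hpos hQ j _ (hpos y hy1) hy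

lemma main_ineq {S : ℤ → ℤ} {D : ℤ} (hD : 2 ≤ D) (hpos : ∀ x, 1 ≤ x → 1 ≤ S x)
    {Q : ℤ → Prop} (hQ : ∀ x, 1 ≤ x → Q x → Q (S x))
    {c : ℝ} {K : ℕ} (F : Finset ℤ) (hF : ∀ y ∈ F, 1 ≤ y ∧ ¬ Q y ∧ Q (S y) ∧ TB S D c K y)
    {Y : ℤ} (hY1 : 1 ≤ Y) (hY : ∀ y ∈ F, y ≤ Y) (M : ℕ) :
    ((M : ℝ) + 1) * (c * ∑ y ∈ F, 1 / (y : ℝ)) ≤
      1 + ((K : ℝ) + M) * Real.log D + Real.log Y := by
  have hD1 : (1 : ℤ) ≤ D := by omega
  have hDr : (0 : ℝ) < (D : ℝ) := by exact_mod_cast (by omega : (0 : ℤ) < D)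
  have hYr : (0 : ℝ) < (Y : ℝ) := by exact_mod_cast (by omega : (0 : ℤ) < Y)
  have hdisj : ∀ p ∈ (Icc K (K + M)) ×ˢ F, ∀ q ∈ (Icc K (K + M)) ×ˢ F, p ≠ q →
      Disjoint (tr S D p.1 p.2) (tr S D q.1 q.2) := by
    intro p hp q hq hpq
    rw [Finset.disjoint_left]
    intro x hx hx'
    rw [tr, Finset.mem_filter, Finset.mem_Icc] at hx hx'
    have hpF := hF _ (Finset.mem_product.1 hp).2
    have hqF := hF _ (Finset.mem_product.1 hq).2
    rcases lt_trichotomy p.1 q.1 with h | h | h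
    · exact no_lt hpos hQ hpF.1 hpF.2.2.1 hqF.2.1 hx.2 hx'.2 h
    · apply hpq
      refine Prod.ext h ?_
      have := hx.2
      rw [h, hx'.2] at this
      exact this.symm
    · exact no_lt hpos hQ hqF.1 hqF.2.2.1 hpF.2.1 hx'.2 hx.2 h
  have hsub : ((Icc K (K + M)) ×ˢ F).biUnion (fun p => tr S D p.1 p.2) ⊆
      Icc (1 : ℤ) (D ^ (K + M) * Y) := by
    intro x hx
    rw [Finset.mem_biUnion] at hx
    obtain ⟨p, hp, hx⟩ := hx
    rw [tr, Finset.mem_filter, Finset.mem_Icc] at hx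
    rw [Finset.mem_product, Finset.mem_Icc] at hp
    rw [Finset.mem_Icc]
    refine ⟨hx.1.1, hx.1.2.trans ?_⟩
    have h1 : D ^ p.1 ≤ D ^ (K + M) := pow_le_pow_right₀ hD1 hp.1.2
    have h2 : (0 : ℤ) ≤ p.2 := by have := (hF _ hp.2).1; omega
    calc D ^ p.1 * p.2 ≤ D ^ (K + M) * p.2 := mul_le_mul_of_nonneg_right h1 h2
      _ ≤ D ^ (K + M) * Y := mul_le_mul_of_nonneg_left (hY _ hp.2) (by positivity)
  have hN : (1 : ℤ) ≤ D ^ (K + M) * Y := by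
    have : (1 : ℤ) ≤ D ^ (K + M) := one_le_pow₀ hD1
    nlinarith
  have hsum : ∑ p ∈ (Icc K (K + M)) ×ˢ F, HH S D p.1 p.2 ≤
      1 + Real.log ((D ^ (K + M) * Y : ℤ) : ℝ) := by
    calc ∑ p ∈ (Icc K (K + M)) ×ˢ F, HH S D p.1 p.2
        = ∑ x ∈ ((Icc K (K + M)) ×ˢ F).biUnion (fun p => tr S D p.1 p.2), 1 / (x : ℝ) := by
          rw [Finset.sum_biUnion]
          · rfl
          · intro p hp q hq hpq
            exact hdisj p hp q hq hpq
      _ ≤ ∑ x ∈ Icc (1 : ℤ) (D ^ (K + M) * Y), 1 / (x : ℝ) := by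
          apply Finset.sum_le_sum_of_subset_of_nonneg hsub
          intro x hx _
          rw [Finset.mem_Icc] at hx
          have : (0 : ℝ) < (x : ℝ) := by exact_mod_cast (by omega : (0 : ℤ) < x)
          positivity
      _ ≤ _ := sum_Icc_le hN
  have hlow : ((M : ℝ) + 1) * (c * ∑ y ∈ F, 1 / (y : ℝ)) ≤
      ∑ p ∈ (Icc K (K + M)) ×ˢ F, HH S D p.1 p.2 := by
    rw [Finset.sum_product]
    have hk : ∀ k ∈ Icc K (K + M), c * ∑ y ∈ F, 1 / (y : ℝ) ≤ ∑ y ∈ F, HH S D k y := by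
      intro k hk
      rw [Finset.mul_sum]
      apply Finset.sum_le_sum
      intro y hy
      have := (hF y hy).2.2.2 k (Finset.mem_Icc.1 hk).1
      rw [mul_one_div]
      exact this
    have h2 := Finset.sum_le_sum hk
    rw [Finset.sum_const, Nat.card_Icc, nsmul_eq_mul] at h2
    have e : (((K + M + 1 - K : ℕ)) : ℝ) = (M : ℝ) + 1 := by
      rw [show K + M + 1 - K = M + 1 by omega]
      push_cast
      ring
    rw [e] at h2
    exact h2
  have hlog : Real.log ((D ^ (K + M) * Y : ℤ) : ℝ) = ((K : ℝ) + M) * Real.log D + Real.log Y := by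
    push_cast
    rw [Real.log_mul (by positivity) (by positivity), Real.log_pow]
    push_cast
    ring
  rw [hlog] at hsum
  linarith

end Z7

theorem exits {S : ℤ → ℤ} {D : ℤ} (hD : 2 ≤ D) (hpos : ∀ x, 1 ≤ x → 1 ≤ S x)
    (hgr : ∀ x, 1 ≤ x → x ≤ D * S x) {Q : ℤ → Prop} (hQ : ∀ x, 1 ≤ x → Q x → Q (S x))
    {c : ℝ} {K : ℕ} (hc : 0 < c) :
    ∃ C : ℝ, ∀ F : Finset ℤ, (∀ y ∈ F, 1 ≤ y ∧ ¬ Q y ∧ Q (S y) ∧ TB S D c K y) →
      ∑ y ∈ F, 1 / (y : ℝ) ≤ C := by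
  have _ := hgr
  refine ⟨Real.log D / c, ?_⟩
  intro F hF
  by_contra hcon
  push Not at hcon
  rw [div_lt_iff₀ hc] at hcon
  set s : ℝ := ∑ y ∈ F, 1 / (y : ℝ) with hs
  set Y : ℤ := 1 + ∑ y ∈ F, y with hYdef
  have h0 : ∀ y ∈ F, (0 : ℤ) ≤ y := fun y hy => by have := (hF y hy).1; omega
  have hY1 : 1 ≤ Y := by
    have := Finset.sum_nonneg h0
    omega
  have hY : ∀ y ∈ F, y ≤ Y := by
    intro y hy
    have := Finset.single_le_sum h0 hy
    omega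
  have hδ : 0 < s * c - Real.log D := by linarith
  obtain ⟨M, hM⟩ := exists_nat_gt ((1 + (K : ℝ) * Real.log D + Real.log Y) / (s * c - Real.log D))
  rw [div_lt_iff₀ hδ] at hM
  have h := Z7.main_ineq hD hpos hQ F hF hY1 hY M
  have hsc : 0 < s * c := by
    have : 0 ≤ Real.log D := Real.log_nonneg (by exact_mod_cast (by omega : (1 : ℤ) ≤ D))
    linarith
  rw [← hs] at h
  nlinarith

end Pool.Agent.H319IZ
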