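import Pool.Agent.H319IZ.Defs

/-!
Z8: harmonically finite sets.
-/

set_option autoImplicit false

namespace Pool.Agent.H319IZ
open Pool.Agent.H319R3.GC Pool.Agent.H319R3.PO Finset Filter Topology

variable {P : ℤ → Prop}

theorem HF.mono {A B : Set ℕ} (h : HF B) (hAB : A ⊆ B) : HF A := by
  obtain ⟨C, hC⟩ := h
  exact ⟨C, fun F hF => hC F fun q hq => hAB (hF q hq)⟩

theorem HF.union {A B : Set ℕ} (hA : HF A) (hB : HF B) : HF (A ∪ B) := by
  classical
  obtain ⟨C, hC⟩ := hA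
  obtain ⟨C', hC'⟩ := hB
  refine ⟨C + C', fun F hF => ?_⟩
  rw [← Finset.sum_filter_add_sum_filter_not F (fun q => q ∈ A)]
  refine add_le_add (hC _ fun q hq => (Finset.mem_filter.1 hq).2) (hC' _ fun q hq => ?_)
  obtain ⟨h1, h2⟩ := Finset.mem_filter.1 hq
  exact (hF q h1).resolve_left h2

/-- pull back along `q ↦ a q + b` -/
theorem HF.pull {A : Set ℕ} (h : HF A) {a b : ℕ} (ha : 1 ≤ a) : HF {q : ℕ | a * q + b ∈ A} := by
  classical
  obtain ⟨C, hC⟩ := h
  refine ⟨((a : ℝ) + b + 1) * C, fun F hF => ?_⟩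
  have h1 : ∑ q ∈ F, 1 / ((q : ℝ) + 1) ≤
      ∑ q ∈ F, ((a : ℝ) + b + 1) * (1 / (((a * q + b : ℕ) : ℝ) + 1)) := by
    refine Finset.sum_le_sum fun q _ => ?_
    rw [mul_one_div, div_le_div_iff₀ (by positivity) (by positivity)]
    push_cast
    have hb : (0 : ℝ) ≤ (b : ℝ) * q := by positivity
    nlinarith [Nat.cast_nonneg (α := ℝ) q, Nat.cast_nonneg (α := ℝ) a, Nat.cast_nonneg (α := ℝ) b]
  refine h1.trans ?_
  rw [← Finset.mul_sum]
  refine mul_le_mul_of_nonneg_left ?_ (by positivity)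
  have hinj : ∀ x ∈ F, ∀ y ∈ F, a * x + b = a * y + b → x = y := by
    intro x _ y _ hxy
    exact Nat.eq_of_mul_eq_mul_left (by omega : 0 < a) (Nat.add_right_cancel hxy)
  rw [← Finset.sum_image (f := fun r : ℕ => 1 / ((r : ℝ) + 1)) hinj]
  refine hC _ fun q hq => ?_
  obtain ⟨r, hr, rfl⟩ := Finset.mem_image.1 hq
  exact hF r hr

/-- glue the residue classes mod `a` -/
theorem HF.glue {A : Set ℕ} {a : ℕ} (ha : 1 ≤ a) (h : ∀ b < a, HF {q : ℕ | a * q + b ∈ A}) :
    HF A := by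
  classical
  choose! C hC using h
  refine ⟨∑ b ∈ Finset.range a, C b, fun F hF => ?_⟩
  have hm : ∀ q ∈ F, q % a ∈ Finset.range a := fun q _ =>
    Finset.mem_range.2 (Nat.mod_lt q (by omega))
  rw [← Finset.sum_fiberwise_of_maps_to hm]
  refine Finset.sum_le_sum fun b hb => ?_
  have hinj : ∀ x ∈ F.filter (fun q => q % a = b), ∀ y ∈ F.filter (fun q => q % a = b),
      x / a = y / a → x = y := by
    intro x hx y hy hxy
    have h1 := (Finset.mem_filter.1 hx).2
    have h2 := (Finset.mem_filter.1 hy).2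
    rw [← Nat.div_add_mod x a, ← Nat.div_add_mod y a, hxy, h1, h2]
  have h1 : ∑ q ∈ F.filter (fun q => q % a = b), 1 / ((q : ℝ) + 1) ≤
      ∑ q ∈ F.filter (fun q => q % a = b), 1 / (((q / a : ℕ) : ℝ) + 1) := by
    refine Finset.sum_le_sum fun q _ => ?_
    refine one_div_le_one_div_of_le (by positivity) ?_
    have : ((q / a : ℕ) : ℝ) ≤ q := by exact_mod_cast Nat.div_le_self q a
    linarith
  refine h1.trans ?_
  rw [← Finset.sum_image (f := fun r : ℕ => 1 / ((r : ℝ) + 1)) hinj]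
  refine hC b (Finset.mem_range.1 hb) _ fun r hr => ?_
  obtain ⟨q, hq, rfl⟩ := Finset.mem_image.1 hr
  obtain ⟨hq1, hq2⟩ := Finset.mem_filter.1 hq
  have e : a * (q / a) + b = q := by rw [← hq2]; exact Nat.div_add_mod q a
  change a * (q / a) + b ∈ A
  rw [e]
  exact hF q hq1

theorem HF.ld0 {A : Set ℕ} (h : HF A) : LD0 A := by
  obtain ⟨C, hC⟩ := h
  intro ε hε
  refine ⟨⌈Real.exp (C / ε)⌉₊, fun X hX F hF => ?_⟩
  refine (hC F fun q hq => (hF q hq).1).trans ?_
  have h1 : Real.exp (C / ε) ≤ X := (Nat.le_ceil _).trans (by exact_mod_cast hX)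
  have h2 : C / ε ≤ Real.log X := by
    rw [Real.le_log_iff_exp_le (lt_of_lt_of_le (Real.exp_pos _) h1)]
    exact h1
  rw [div_le_iff₀ hε] at h2
  linarith

theorem Near.refl (u : ℕ → ℤ) : Near P u u := by
  refine ⟨0, fun F hF => ?_⟩
  have h : F = ∅ := Finset.eq_empty_of_forall_notMem fun q hq => hF q hq Iff.rfl
  rw [h, Finset.sum_empty]

theorem Near.symm {u v : ℕ → ℤ} (h : Near P u v) : Near P v u :=
  HF.mono h fun _ hq h' => hq h'.symm

theorem Near.trans {u v w : ℕ → ℤ} (h : Near P u v) (h' : Near P v w) : Near P u w := by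
  refine HF.mono (HF.union h h') fun q hq => ?_
  by_cases h1 : P (u q) ↔ P (v q)
  · exact Or.inr fun h2 => hq (h1.trans h2)
  · exact Or.inl h1

/-- glue for `Near` -/
theorem Near.glue {u v : ℕ → ℤ} {a : ℕ} (ha : 1 ≤ a)
    (h : ∀ b < a, Near P (fun q => u (a * q + b)) (fun q => v (a * q + b))) : Near P u v :=
  HF.glue ha h

end Pool.Agent.H319IZ
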